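import Mathlib

set_option autoImplicit false
open Filter Topology BoundedContinuousFunction ComplexOrder

namespace Run7.h37.ApproxProj

/-- the C*-algebra of complex two by two matrices -/
abbrev B := CStarMatrix (Fin 2) (Fin 2) ℂ

/-- the rank one projection onto the line of `(1, s)` -/
noncomputable def P (s : ℝ) : B :=
  CStarMatrix.ofMatrix !![((1 / (1 + s ^ 2) : ℝ) : ℂ), ((s / (1 + s ^ 2) : ℝ) : ℂ);
    ((s / (1 + s ^ 2) : ℝ) : ℂ), ((s ^ 2 / (1 + s ^ 2) : ℝ) : ℂ)]

lemma P00 (s : ℝ) : P s 0 0 = ((1 / (1 + s ^ 2) : ℝ) : ℂ) := rfl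
lemma P01 (s : ℝ) : P s 0 1 = ((s / (1 + s ^ 2) : ℝ) : ℂ) := rfl
lemma P10 (s : ℝ) : P s 1 0 = ((s / (1 + s ^ 2) : ℝ) : ℂ) := rfl
lemma P11 (s : ℝ) : P s 1 1 = ((s ^ 2 / (1 + s ^ 2) : ℝ) : ℂ) := rfl

lemma P_idem (s : ℝ) : P s * P s = P s := by
  have hs : (1 + s ^ 2 : ℝ) ≠ 0 := by positivity
  apply CStarMatrix.ext
  intro i j
  rw [CStarMatrix.mul_apply, Fin.sum_univ_two]
  fin_cases i <;> fin_cases j <;>
    simp only [Fin.mk_zero, Fin.mk_one, P00, P01, P10, P11] <;>
    rw [← Complex.ofReal_mul, ← Complex.ofReal_mul, ← Complex.ofReal_add] <;>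
    congr 1 <;> field_simp

lemma P_star (s : ℝ) : star (P s) = P s := by
  apply CStarMatrix.ext
  intro i j
  rw [CStarMatrix.star_apply]
  fin_cases i <;> fin_cases j <;>
    simp only [Fin.mk_zero, Fin.mk_one, P00, P01, P10, P11] <;>
    exact Complex.conj_ofReal _

lemma P_tendsto : Tendsto (fun n : ℕ => P (1 / ((n : ℝ) + 1))) atTop (𝓝 (P 0)) := by
  have hc : Continuous (fun s : ℝ => P s) := by
    have hd : ∀ s : ℝ, (1 + s ^ 2 : ℝ) ≠ 0 := fun s => by positivity
    unfold P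
    refine continuous_pi fun i => continuous_pi fun j => ?_
    fin_cases i <;> fin_cases j
    · exact Complex.continuous_ofReal.comp (by fun_prop (disch := exact hd _))
    · exact Complex.continuous_ofReal.comp (by fun_prop (disch := exact hd _))
    · exact Complex.continuous_ofReal.comp (by fun_prop (disch := exact hd _))
    · exact Complex.continuous_ofReal.comp (by fun_prop (disch := exact hd _))
  exact (hc.tendsto 0).comp tendsto_one_div_add_atTop_nhds_zero_nat

lemma P_sup {s : ℝ} (hs : s ≠ 0) {q : B} (h0 : P 0 * q = P 0) (h1 : P s * q = P s) : q = 1 := by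
  have hd : (1 + s ^ 2 : ℝ) ≠ 0 := by positivity
  have e00 : (P 0 * q) 0 0 = P 0 0 0 := by rw [h0]
  have e01 : (P 0 * q) 0 1 = P 0 0 1 := by rw [h0]
  have f00 : (P s * q) 0 0 = P s 0 0 := by rw [h1]
  have f01 : (P s * q) 0 1 = P s 0 1 := by rw [h1]
  rw [CStarMatrix.mul_apply, Fin.sum_univ_two, P00, P01] at e00 e01 f00 f01
  norm_num at e00 e01
  rw [e00] at f00
  rw [e01] at f01
  have hsd : ((s / (1 + s ^ 2) : ℝ) : ℂ) ≠ 0 := by
    rw [Complex.ofReal_ne_zero]; exact div_ne_zero hs hd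
  have g10 : q 1 0 = 0 := by
    have : ((s / (1 + s ^ 2) : ℝ) : ℂ) * q 1 0 = 0 := by linear_combination f00
    exact (mul_eq_zero.mp this).resolve_left hsd
  have g11 : q 1 1 = 1 := by
    have : ((s / (1 + s ^ 2) : ℝ) : ℂ) * (q 1 1 - 1) = 0 := by linear_combination f01
    have := (mul_eq_zero.mp this).resolve_left hsd
    linear_combination this
  apply CStarMatrix.ext
  intro i j
  rw [CStarMatrix.one_apply]
  fin_cases i <;> fin_cases j
  · simpa using e00
  · simpa using e01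
  · simpa using g10
  · simpa using g11

lemma P0_ne_one : P 0 ≠ 1 := by
  intro h
  have : P 0 1 1 = (1 : B) 1 1 := by rw [h]
  rw [P11, CStarMatrix.one_apply_eq] at this
  norm_num at this

/-- index set: pairs of sets of reals and a natural number -/
structure Idx where
  a : Set ℝ
  b : Set ℝ
  n : ℕ

instance : TopologicalSpace Idx := ⊥
instance : DiscreteTopology Idx := ⟨rfl⟩

/-- the parameters `1/(n+1)` -/
noncomputable def tt (n : ℕ) : ℝ := 1 / ((n : ℝ) + 1)

lemma tt_ne (n : ℕ) : tt n ≠ 0 := by unfold tt; positivity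

/-- `x` lives in the corner of `p` -/
def Cor (p x : B) : Prop := p * x = x ∧ x * p = x

lemma Cor.zero (p : B) : Cor p 0 := ⟨mul_zero _, zero_mul _⟩
lemma Cor.self (s : ℝ) : Cor (P s) (P s) := ⟨P_idem s, P_idem s⟩
lemma Cor.add {p x y : B} (hx : Cor p x) (hy : Cor p y) : Cor p (x + y) :=
  ⟨by rw [mul_add, hx.1, hy.1], by rw [add_mul, hx.2, hy.2]⟩
lemma Cor.mul {p x y : B} (hx : Cor p x) (hy : Cor p y) : Cor p (x * y) :=
  ⟨by rw [← mul_assoc, hx.1], by rw [mul_assoc, hy.2]⟩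
lemma Cor.smul {p x : B} (c : ℂ) (hx : Cor p x) : Cor p (c • x) :=
  ⟨by rw [mul_smul_comm, hx.1], by rw [smul_mul_assoc, hx.2]⟩
lemma Cor.star {s : ℝ} {x : B} (hx : Cor (P s) x) : Cor (P s) (star x) := by
  constructor
  · have := congrArg Star.star hx.2
    rwa [star_mul, P_star] at this
  · have := congrArg Star.star hx.1
    rwa [star_mul, P_star] at this
lemma Cor.lim {p : B} {x : ℕ → B} {y : B} (hx : ∀ k, Cor p (x k)) (h : Tendsto x atTop (𝓝 y)) :
    Cor p y := by
  constructor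
  · have h1 : Tendsto (fun k => p * x k) atTop (𝓝 (p * y)) := h.const_mul p
    have h2 : (fun k => p * x k) = x := funext fun k => (hx k).1
    rw [h2] at h1
    exact tendsto_nhds_unique h1 h
  · have h1 : Tendsto (fun k => x k * p) atTop (𝓝 (y * p)) := h.mul_const p
    have h2 : (fun k => x k * p) = x := funext fun k => (hx k).2
    rw [h2] at h1
    exact tendsto_nhds_unique h1 h

/-- support condition -/
def Good (S : Set (Set ℝ)) (f : Idx → B) : Prop :=
  (∀ i : Idx, i.b ∉ S → Cor (P 0) (f i)) ∧ (∀ i : Idx, i.a ∉ S → Cor (P (tt i.n)) (f i)) ∧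
    (∀ i : Idx, i.a ∉ S → i.b ∉ S → f i = 0)

lemma Good.mono {S T : Set (Set ℝ)} {f : Idx → B} (h : Good S f) (hST : S ⊆ T) : Good T f :=
  ⟨fun i hi => h.1 i fun h' => hi (hST h'), fun i hi => h.2.1 i fun h' => hi (hST h'),
    fun i hi hi' => h.2.2 i (fun h' => hi (hST h')) fun h' => hi' (hST h')⟩

/-- limit condition -/
def Lim (f : Idx → B) : Prop :=
  ∀ a b : Set ℝ, Tendsto (fun n => P 0 * f ⟨a, b, n⟩ - f ⟨a, b, n⟩) atTop (𝓝 0) ∧
    Tendsto (fun n => f ⟨a, b, n⟩ * P 0 - f ⟨a, b, n⟩) atTop (𝓝 0)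

lemma Lim.mul {f g : Idx →ᵇ B} (hf : Lim f) (hg : Lim g) : Lim (f * g : Idx →ᵇ B) := by
  intro a b
  constructor
  · have h := (hf a b).1
    rw [tendsto_zero_iff_norm_tendsto_zero] at h ⊢
    have h2 := h.mul_const ‖g‖
    rw [zero_mul] at h2
    refine squeeze_zero (fun n => norm_nonneg _) (fun n => ?_) h2
    have : P 0 * (f * g : Idx →ᵇ B) ⟨a, b, n⟩ - (f * g : Idx →ᵇ B) ⟨a, b, n⟩ =
        (P 0 * f ⟨a, b, n⟩ - f ⟨a, b, n⟩) * g ⟨a, b, n⟩ := by
      simp only [BoundedContinuousFunction.mul_apply]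
      noncomm_ring
    rw [this]
    exact (norm_mul_le _ _).trans (mul_le_mul_of_nonneg_left (g.norm_coe_le_norm _) (norm_nonneg _))
  · have h := (hg a b).2
    rw [tendsto_zero_iff_norm_tendsto_zero] at h ⊢
    have h2 := h.const_mul ‖f‖
    rw [mul_zero] at h2
    refine squeeze_zero (fun n => norm_nonneg _) (fun n => ?_) h2
    have : (f * g : Idx →ᵇ B) ⟨a, b, n⟩ * P 0 - (f * g : Idx →ᵇ B) ⟨a, b, n⟩ =
        f ⟨a, b, n⟩ * (g ⟨a, b, n⟩ * P 0 - g ⟨a, b, n⟩) := by
      simp only [BoundedContinuousFunction.mul_apply]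
      noncomm_ring
    rw [this]
    exact (norm_mul_le _ _).trans (mul_le_mul_of_nonneg_right (f.norm_coe_le_norm _) (norm_nonneg _))

/-- the algebra -/
noncomputable def Alg : NonUnitalStarSubalgebra ℂ (Idx →ᵇ B) where
  carrier := {f | (∃ S : Set (Set ℝ), S.Countable ∧ Good S f) ∧ Lim f}
  add_mem' := by
    rintro f g ⟨⟨S, hS, hf⟩, hf'⟩ ⟨⟨T, hT, hg⟩, hg'⟩
    have hf := hf.mono (Set.subset_union_left (t := T))
    have hg := hg.mono (Set.subset_union_right (s := S))
    refine ⟨⟨S ∪ T, hS.union hT, ?_, ?_, ?_⟩, ?_⟩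
    · intro i hi
      exact (hf.1 i hi).add (hg.1 i hi)
    · intro i hi
      exact (hf.2.1 i hi).add (hg.2.1 i hi)
    · intro i hi hi'
      change f i + g i = 0
      rw [hf.2.2 i hi hi', hg.2.2 i hi hi', add_zero]
    · intro a b
      constructor
      · have := (hf' a b).1.add (hg' a b).1
        rw [add_zero] at this
        refine this.congr fun n => ?_
        simp only [BoundedContinuousFunction.add_apply]
        noncomm_ring
      · have := (hf' a b).2.add (hg' a b).2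
        rw [add_zero] at this
        refine this.congr fun n => ?_
        simp only [BoundedContinuousFunction.add_apply]
        noncomm_ring
  zero_mem' := by
    refine ⟨⟨∅, Set.countable_empty, ?_, ?_, ?_⟩, ?_⟩
    · intro i _; exact Cor.zero _
    · intro i _; exact Cor.zero _
    · intro i _ _; rfl
    · intro a b
      constructor <;> simp
  mul_mem' := by
    rintro f g ⟨⟨S, hS, hf⟩, hf'⟩ ⟨⟨T, hT, hg⟩, hg'⟩
    have hf := hf.mono (Set.subset_union_left (t := T))
    have hg := hg.mono (Set.subset_union_right (s := S))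
    refine ⟨⟨S ∪ T, hS.union hT, ?_, ?_, ?_⟩, hf'.mul hg'⟩
    · intro i hi
      exact (hf.1 i hi).mul (hg.1 i hi)
    · intro i hi
      exact (hf.2.1 i hi).mul (hg.2.1 i hi)
    · intro i hi hi'
      change f i * g i = 0
      rw [hf.2.2 i hi hi', zero_mul]
  smul_mem' := by
    rintro c f ⟨⟨S, hS, hf⟩, hf'⟩
    refine ⟨⟨S, hS, ?_, ?_, ?_⟩, ?_⟩
    · intro i hi
      exact (hf.1 i hi).smul c
    · intro i hi
      exact (hf.2.1 i hi).smul c
    · intro i hi hi'
      change c • f i = 0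
      rw [hf.2.2 i hi hi', smul_zero]
    · intro a b
      constructor
      · have := (hf' a b).1.const_smul c
        rw [smul_zero] at this
        refine this.congr fun n => ?_
        change c • (P 0 * f ⟨a, b, n⟩ - f ⟨a, b, n⟩) = P 0 * (c • f ⟨a, b, n⟩) - c • f ⟨a, b, n⟩
        rw [smul_sub, mul_smul_comm]
      · have := (hf' a b).2.const_smul c
        rw [smul_zero] at this
        refine this.congr fun n => ?_
        change c • (f ⟨a, b, n⟩ * P 0 - f ⟨a, b, n⟩) = (c • f ⟨a, b, n⟩) * P 0 - c • f ⟨a, b, n⟩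
        rw [smul_sub, smul_mul_assoc]
  star_mem' := by
    rintro f ⟨⟨S, hS, hf⟩, hf'⟩
    refine ⟨⟨S, hS, ?_, ?_, ?_⟩, ?_⟩
    · intro i hi
      exact (hf.1 i hi).star
    · intro i hi
      exact (hf.2.1 i hi).star
    · intro i hi hi'
      change star (f i) = 0
      rw [hf.2.2 i hi hi', star_zero]
    · intro a b
      constructor
      · have := (hf' a b).2.star
        rw [star_zero] at this
        refine this.congr fun n => ?_
        rw [star_sub, star_mul, P_star]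
        rfl
      · have := (hf' a b).1.star
        rw [star_zero] at this
        refine this.congr fun n => ?_
        rw [star_sub, star_mul, P_star]
        rfl

lemma mem_Alg {f : Idx →ᵇ B} :
    f ∈ Alg ↔ (∃ S : Set (Set ℝ), S.Countable ∧ Good S f) ∧ Lim f := Iff.rfl

lemma norm_P_le (s : ℝ) : ‖P s‖ ≤ 1 :=
  IsStarProjection.norm_le (P s) ⟨P_idem s, P_star s⟩

lemma isClosed_Alg : IsClosed (Alg : Set (Idx →ᵇ B)) := by
  apply IsSeqClosed.isClosed
  intro f g hf hfg
  have hpt : ∀ i, Tendsto (fun k => f k i) atTop (𝓝 (g i)) := fun i =>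
    ((continuous_eval_const i).tendsto g).comp hfg
  choose S hS hG using fun k => (mem_Alg.mp (hf k)).1
  refine ⟨⟨⋃ k, S k, Set.countable_iUnion hS, ?_, ?_, ?_⟩, ?_⟩
  · intro i hi
    exact Cor.lim (fun k => ((hG k).mono (Set.subset_iUnion S k)).1 i hi) (hpt i)
  · intro i hi
    exact Cor.lim (fun k => ((hG k).mono (Set.subset_iUnion S k)).2.1 i hi) (hpt i)
  · intro i hi hi'
    have h0 : (fun k => f k i) = fun _ => 0 :=
      funext fun k => ((hG k).mono (Set.subset_iUnion S k)).2.2 i hi hi'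
    have := hpt i
    rw [h0] at this
    exact (tendsto_nhds_unique this tendsto_const_nhds)
  · intro a b
    rw [Metric.tendsto_atTop] at hfg
    constructor
    · rw [Metric.tendsto_atTop]
      intro ε hε
      obtain ⟨k, hk⟩ := hfg (ε / 3) (by positivity)
      have hk := hk k le_rfl
      obtain ⟨N, hN⟩ := Metric.tendsto_atTop.mp ((mem_Alg.mp (hf k)).2 a b).1 (ε / 3) (by positivity)
      refine ⟨N, fun n hn => ?_⟩
      have h1 := hN n hn
      rw [dist_zero_right] at h1 ⊢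
      rw [dist_comm, dist_eq_norm] at hk
      have h2 : ‖g ⟨a, b, n⟩ - f k ⟨a, b, n⟩‖ < ε / 3 :=
        lt_of_le_of_lt ((g - f k).norm_coe_le_norm ⟨a, b, n⟩) hk
      have h3 : P 0 * g ⟨a, b, n⟩ - g ⟨a, b, n⟩ =
          (P 0 * f k ⟨a, b, n⟩ - f k ⟨a, b, n⟩) + P 0 * (g ⟨a, b, n⟩ - f k ⟨a, b, n⟩) -
            (g ⟨a, b, n⟩ - f k ⟨a, b, n⟩) := by noncomm_ring
      rw [h3]
      have h4 : ‖P 0 * (g ⟨a, b, n⟩ - f k ⟨a, b, n⟩)‖ < ε / 3 := by
        refine lt_of_le_of_lt (norm_mul_le _ _) (lt_of_le_of_lt ?_ h2)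
        calc _ ≤ 1 * ‖g ⟨a, b, n⟩ - f k ⟨a, b, n⟩‖ :=
              mul_le_mul_of_nonneg_right (norm_P_le 0) (norm_nonneg _)
          _ = _ := one_mul _
      calc _ ≤ ‖(P 0 * f k ⟨a, b, n⟩ - f k ⟨a, b, n⟩) + P 0 * (g ⟨a, b, n⟩ - f k ⟨a, b, n⟩)‖ +
            ‖g ⟨a, b, n⟩ - f k ⟨a, b, n⟩‖ := norm_sub_le _ _
        _ ≤ (‖P 0 * f k ⟨a, b, n⟩ - f k ⟨a, b, n⟩‖ + ‖P 0 * (g ⟨a, b, n⟩ - f k ⟨a, b, n⟩)‖) +
            ‖g ⟨a, b, n⟩ - f k ⟨a, b, n⟩‖ := by gcongr; exact norm_add_le _ _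
        _ < ε := by linarith
    · rw [Metric.tendsto_atTop]
      intro ε hε
      obtain ⟨k, hk⟩ := hfg (ε / 3) (by positivity)
      have hk := hk k le_rfl
      obtain ⟨N, hN⟩ := Metric.tendsto_atTop.mp ((mem_Alg.mp (hf k)).2 a b).2 (ε / 3) (by positivity)
      refine ⟨N, fun n hn => ?_⟩
      have h1 := hN n hn
      rw [dist_zero_right] at h1 ⊢
      rw [dist_comm, dist_eq_norm] at hk
      have h2 : ‖g ⟨a, b, n⟩ - f k ⟨a, b, n⟩‖ < ε / 3 :=
        lt_of_le_of_lt ((g - f k).norm_coe_le_norm ⟨a, b, n⟩) hk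
      have h3 : g ⟨a, b, n⟩ * P 0 - g ⟨a, b, n⟩ =
          (f k ⟨a, b, n⟩ * P 0 - f k ⟨a, b, n⟩) + (g ⟨a, b, n⟩ - f k ⟨a, b, n⟩) * P 0 -
            (g ⟨a, b, n⟩ - f k ⟨a, b, n⟩) := by noncomm_ring
      rw [h3]
      have h4 : ‖(g ⟨a, b, n⟩ - f k ⟨a, b, n⟩) * P 0‖ < ε / 3 := by
        refine lt_of_le_of_lt (norm_mul_le _ _) (lt_of_le_of_lt ?_ h2)
        calc _ ≤ ‖g ⟨a, b, n⟩ - f k ⟨a, b, n⟩‖ * 1 :=
              mul_le_mul_of_nonneg_left (norm_P_le 0) (norm_nonneg _)
          _ = _ := mul_one _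
      calc _ ≤ ‖(f k ⟨a, b, n⟩ * P 0 - f k ⟨a, b, n⟩) + (g ⟨a, b, n⟩ - f k ⟨a, b, n⟩) * P 0‖ +
            ‖g ⟨a, b, n⟩ - f k ⟨a, b, n⟩‖ := norm_sub_le _ _
        _ ≤ (‖f k ⟨a, b, n⟩ * P 0 - f k ⟨a, b, n⟩‖ + ‖(g ⟨a, b, n⟩ - f k ⟨a, b, n⟩) * P 0‖) +
            ‖g ⟨a, b, n⟩ - f k ⟨a, b, n⟩‖ := by gcongr; exact norm_add_le _ _
        _ < ε := by linarith

instance : IsClosed (Alg : Set (Idx →ᵇ B)) := isClosed_Alg

noncomputable instance instAlg : NonUnitalCStarAlgebra Alg := inferInstance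

/-- finitely many elements have a projection acting almost as a unit -/
lemma exists_proj (F : Finset Alg) {ε : ℝ} (hε : 0 < ε) :
    ∃ p : Alg, (IsIdempotentElem p ∧ IsSelfAdjoint p) ∧ ∀ a ∈ F, ‖p * a - a‖ ≤ ε ∧ ‖a * p - a‖ ≤ ε := by
  classical
  choose S hS hG using fun a : Alg => (mem_Alg.mp a.2).1
  set T : Set (Set ℝ) := ⋃ a ∈ F, S a with hT
  have hTc : T.Countable := F.countable_toSet.biUnion fun a _ => hS a
  have hGT : ∀ a ∈ F, Good T (a : Idx →ᵇ B) := fun a ha =>
    (hG a).mono (Set.subset_biUnion_of_mem (u := fun a => S a) ha)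
  have hN : ∀ x y : Set ℝ, ∃ N : ℕ, ∀ n ≥ N, ∀ a ∈ F,
      ‖P 0 * (a : Idx →ᵇ B) ⟨x, y, n⟩ - (a : Idx →ᵇ B) ⟨x, y, n⟩‖ ≤ ε ∧
      ‖(a : Idx →ᵇ B) ⟨x, y, n⟩ * P 0 - (a : Idx →ᵇ B) ⟨x, y, n⟩‖ ≤ ε := by
    intro x y
    have : ∀ᶠ n in atTop, ∀ a ∈ F,
      ‖P 0 * (a : Idx →ᵇ B) ⟨x, y, n⟩ - (a : Idx →ᵇ B) ⟨x, y, n⟩‖ ≤ ε ∧
      ‖(a : Idx →ᵇ B) ⟨x, y, n⟩ * P 0 - (a : Idx →ᵇ B) ⟨x, y, n⟩‖ ≤ ε := by
      rw [Filter.eventually_all_finset]
      intro a _
      have h := (mem_Alg.mp a.2).2 x y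
      have h1 := tendsto_zero_iff_norm_tendsto_zero.mp h.1
      have h2 := tendsto_zero_iff_norm_tendsto_zero.mp h.2
      exact (h1.eventually_le_const hε).and (h2.eventually_le_const hε)
    exact eventually_atTop.mp this
  choose N hN using hN
  let pf : Idx → B := fun i => if i.a ∈ T then
      (if i.b ∈ T then (if i.n < N i.a i.b then 1 else P 0) else P 0)
    else (if i.b ∈ T then P (tt i.n) else 0)
  have hpf : ∀ i, IsStarProjection (pf i) := by
    intro i
    have h0 : IsStarProjection (P 0) := ⟨P_idem 0, P_star 0⟩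
    have h1 : IsStarProjection (P (tt i.n)) := ⟨P_idem _, P_star _⟩
    simp only [pf]
    split_ifs
    · exact IsStarProjection.one _
    · exact h0
    · exact h0
    · exact h1
    · exact IsStarProjection.zero _
  let p : Idx →ᵇ B := BoundedContinuousFunction.ofNormedAddCommGroupDiscrete pf 1
    (fun i => IsStarProjection.norm_le _ (hpf i))
  have hpi : ∀ i, p i = pf i := fun i => rfl
  have hp : p ∈ Alg := by
    refine ⟨⟨T, hTc, ?_, ?_, ?_⟩, ?_⟩
    · intro i hi
      rw [hpi]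
      simp only [pf, if_neg hi]
      split_ifs
      · exact Cor.self 0
      · exact Cor.zero _
    · intro i hi
      rw [hpi]
      simp only [pf, if_neg hi]
      split_ifs
      · exact Cor.self _
      · exact Cor.zero _
    · intro i hi hi'
      rw [hpi]
      simp only [pf, if_neg hi, if_neg hi']
    · intro x y
      by_cases hx : x ∈ T
      · have hev : ∀ᶠ n in atTop, p ⟨x, y, n⟩ = P 0 := by
          by_cases hy : y ∈ T
          · filter_upwards [eventually_ge_atTop (N x y)] with n hn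
            rw [hpi]
            simp only [pf, if_pos hx, if_pos hy, if_neg (not_lt.mpr hn)]
          · refine Eventually.of_forall fun n => ?_
            rw [hpi]
            simp only [pf, if_pos hx, if_neg hy]
        constructor
        · refine tendsto_const_nhds.congr' ?_
          filter_upwards [hev] with n hn
          rw [hn, P_idem, sub_self]
        · refine tendsto_const_nhds.congr' ?_
          filter_upwards [hev] with n hn
          rw [hn, P_idem, sub_self]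
      · by_cases hy : y ∈ T
        · have hv : ∀ n, p ⟨x, y, n⟩ = P (tt n) := by
            intro n
            rw [hpi]
            simp only [pf, if_neg hx, if_pos hy]
          simp only [hv]
          constructor
          · have := (P_tendsto.const_mul (P 0)).sub P_tendsto
            rwa [P_idem, sub_self] at this
          · have := (P_tendsto.mul_const (P 0)).sub P_tendsto
            rwa [P_idem, sub_self] at this
        · have hv : ∀ n, p ⟨x, y, n⟩ = 0 := by
            intro n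
            rw [hpi]
            simp only [pf, if_neg hx, if_neg hy]
          simp only [hv]
          constructor <;> simp
  refine ⟨⟨p, hp⟩, ⟨?_, ?_⟩, ?_⟩
  · apply Subtype.ext
    apply BoundedContinuousFunction.ext
    intro i
    exact (hpf i).isIdempotentElem
  · apply Subtype.ext
    apply BoundedContinuousFunction.ext
    intro i
    exact (hpf i).isSelfAdjoint
  · intro a ha
    have hGa := hGT a ha
    constructor
    · change ‖p * (a : Idx →ᵇ B) - (a : Idx →ᵇ B)‖ ≤ ε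
      rw [BoundedContinuousFunction.norm_le hε.le]
      intro i
      change ‖pf i * (a : Idx →ᵇ B) i - (a : Idx →ᵇ B) i‖ ≤ ε
      simp only [pf]
      split_ifs with h1 h2 h3 h4
      · rw [one_mul, sub_self, norm_zero]; exact hε.le
      · exact (hN i.a i.b i.n (not_lt.mp h3) a ha).1
      · rw [(hGa.1 i h2).1, sub_self, norm_zero]; exact hε.le
      · rw [(hGa.2.1 i h1).1, sub_self, norm_zero]; exact hε.le
      · rw [hGa.2.2 i h1 h4, mul_zero, sub_self, norm_zero]; exact hε.le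
    · change ‖(a : Idx →ᵇ B) * p - (a : Idx →ᵇ B)‖ ≤ ε
      rw [BoundedContinuousFunction.norm_le hε.le]
      intro i
      change ‖(a : Idx →ᵇ B) i * pf i - (a : Idx →ᵇ B) i‖ ≤ ε
      simp only [pf]
      split_ifs with h1 h2 h3 h4
      · rw [mul_one, sub_self, norm_zero]; exact hε.le
      · exact (hN i.a i.b i.n (not_lt.mp h3) a ha).2
      · rw [(hGa.1 i h2).2, sub_self, norm_zero]; exact hε.le
      · rw [(hGa.2.1 i h1).2, sub_self, norm_zero]; exact hε.le
      · rw [hGa.2.2 i h1 h4, zero_mul, sub_self, norm_zero]; exact hε.le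

/-- the standard generators -/
noncomputable def Egen (k : Set ℝ) : Idx → B :=
  open Classical in fun i => if i.a = k then P 0 else if i.b = k then P (tt i.n) else 0

lemma norm_Egen (k : Set ℝ) (i : Idx) : ‖Egen k i‖ ≤ 1 := by
  unfold Egen
  split_ifs
  · exact norm_P_le _
  · exact norm_P_le _
  · simp

noncomputable def Eb (k : Set ℝ) : Idx →ᵇ B :=
  BoundedContinuousFunction.ofNormedAddCommGroupDiscrete (Egen k) 1 (norm_Egen k)

lemma Eb_apply (k : Set ℝ) (i : Idx) : Eb k i = Egen k i := rfl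

lemma Eb_mem (k : Set ℝ) : Eb k ∈ Alg := by
  refine ⟨⟨{k}, Set.countable_singleton k, ?_, ?_, ?_⟩, ?_⟩
  · intro i hi
    rw [Eb_apply]
    simp only [Egen, if_neg (Set.mem_singleton_iff.not.mp hi)]
    split_ifs
    · exact Cor.self 0
    · exact Cor.zero _
  · intro i hi
    rw [Eb_apply]
    simp only [Egen, if_neg (Set.mem_singleton_iff.not.mp hi)]
    split_ifs
    · exact Cor.self _
    · exact Cor.zero _
  · intro i hi hi'
    rw [Eb_apply]
    simp only [Egen, if_neg (Set.mem_singleton_iff.not.mp hi),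
      if_neg (Set.mem_singleton_iff.not.mp hi')]
  · intro x y
    by_cases hx : x = k
    · have hv : ∀ n, Eb k ⟨x, y, n⟩ = P 0 := by
        intro n
        rw [Eb_apply]
        simp only [Egen, if_pos hx]
      simp only [hv]
      constructor
      · rw [P_idem, sub_self]; exact tendsto_const_nhds
      · rw [P_idem, sub_self]; exact tendsto_const_nhds
    · by_cases hy : y = k
      · have hv : ∀ n, Eb k ⟨x, y, n⟩ = P (tt n) := by
          intro n
          rw [Eb_apply]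
          simp only [Egen, if_neg hx, if_pos hy]
        simp only [hv]
        constructor
        · have := (P_tendsto.const_mul (P 0)).sub P_tendsto
          rwa [P_idem, sub_self] at this
        · have := (P_tendsto.mul_const (P 0)).sub P_tendsto
          rwa [P_idem, sub_self] at this
      · have hv : ∀ n, Eb k ⟨x, y, n⟩ = 0 := by
          intro n
          rw [Eb_apply]
          simp only [Egen, if_neg hx, if_neg hy]
        simp only [hv]
        constructor <;> simp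

/-- a projection of norm less than one vanishes -/
lemma eq_zero_of_norm_lt {x : B} (h1 : x * x = x) (h2 : star x = x) (h3 : ‖x‖ < 1) : x = 0 := by
  have h4 : ‖x‖ * ‖x‖ = ‖x‖ := by
    have := CStarRing.norm_star_mul_self (x := x)
    rw [h2, h1] at this
    exact this.symm
  have h5 : ‖x‖ = 0 := by
    by_contra h
    have : ‖x‖ = 1 := by
      field_simp at h4
      exact h4
    linarith
  exact norm_eq_zero.mp h5

/-- a projection in the corner of `P s`, close to `P s`, is `P s` -/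
lemma eq_P {s : ℝ} {q : B} (h1 : q * q = q) (h2 : star q = q) (hc : Cor (P s) q)
    (h3 : ‖q * P s - P s‖ < 1) : q = P s := by
  rw [hc.2] at h3
  have : P s - q = 0 := by
    apply eq_zero_of_norm_lt
    · calc (P s - q) * (P s - q) = P s * P s - P s * q - q * P s + q * q := by noncomm_ring
        _ = P s - q := by rw [P_idem, hc.1, hc.2, h1]; abel
    · rw [star_sub, P_star, h2]
    · rwa [norm_sub_rev]
  rw [sub_eq_zero] at this
  exact this.symm

/-- a free pair for a map to countable sets -/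
lemma free_pair (S : Set ℝ → Set (Set ℝ)) (hS : ∀ k, (S k).Countable) :
    ∃ x y : Set ℝ, x ≠ y ∧ y ∉ S x ∧ x ∉ S y := by
  have h1 : (⋃ r : ℝ, S {r}) ≠ Set.univ := by
    intro h
    have h2 : Cardinal.mk (⋃ r : ℝ, S {r}) ≤ Cardinal.continuum := by
      refine (Cardinal.mk_iUnion_le _).trans ?_
      rw [Cardinal.mk_real]
      calc Cardinal.continuum * (⨆ r : ℝ, Cardinal.mk (S {r}))
          ≤ Cardinal.continuum * Cardinal.aleph0 := by
            gcongr
            exact ciSup_le' fun r => (Cardinal.le_aleph0_iff_set_countable.mpr (hS _))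
        _ = Cardinal.continuum := Cardinal.continuum_mul_aleph0
    rw [h, Cardinal.mk_univ, Cardinal.mk_set, Cardinal.mk_real] at h2
    exact absurd h2 (not_le.mpr (Cardinal.cantor _))
  obtain ⟨y, hy⟩ := (Set.ne_univ_iff_exists_notMem _).mp h1
  have h3 : (S y ∪ {y}).Countable := (hS y).union (Set.countable_singleton y)
  have h4 : ((fun r : ℝ => ({r} : Set ℝ)) ⁻¹' (S y ∪ {y})).Countable :=
    h3.preimage Set.singleton_injective
  have h5 : ((fun r : ℝ => ({r} : Set ℝ)) ⁻¹' (S y ∪ {y})) ≠ Set.univ := by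
    intro h
    rw [h] at h4
    exact Set.not_countable_univ h4
  obtain ⟨r, hr⟩ := (Set.ne_univ_iff_exists_notMem _).mp h5
  refine ⟨{r}, y, ?_, ?_, ?_⟩
  · intro h
    exact hr (Or.inr h)
  · intro h
    exact hy (Set.mem_iUnion.mpr ⟨r, h⟩)
  · intro h
    exact hr (Or.inl h)

theorem not_exists_increasing :
    ¬ ∃ (Λ : Type) (_ : Preorder Λ) (_ : IsDirected Λ (· ≤ ·)) (_ : Nonempty Λ) (e : Λ → Alg),
        (∀ i, IsIdempotentElem (e i) ∧ IsSelfAdjoint (e i)) ∧
        (∀ i j, i ≤ j → e i * e j = e i) ∧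
        ∀ a : Alg, Tendsto (fun i => e i * a) atTop (𝓝 a) ∧
          Tendsto (fun i => a * e i) atTop (𝓝 a) := by
  rintro ⟨Λ, hpre, hdir, hne, e, he, hinc, hlim⟩
  have h1 : ∀ k : Set ℝ, ∃ l : Λ, ‖e l * ⟨Eb k, Eb_mem k⟩ - (⟨Eb k, Eb_mem k⟩ : Alg)‖ < 1 := by
    intro k
    have := (hlim ⟨Eb k, Eb_mem k⟩).1.eventually (Metric.ball_mem_nhds _ one_pos)
    obtain ⟨l, hl⟩ := this.exists
    refine ⟨l, ?_⟩
    rwa [dist_eq_norm] at hl
  choose l hl using h1
  choose S hS hG using fun k : Set ℝ => (mem_Alg.mp (e (l k)).2).1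
  obtain ⟨x, y, hxy, hyx, hxy'⟩ := free_pair S hS
  obtain ⟨m, hm1, hm2⟩ := directed_of (· ≤ ·) (l x) (l y)
  have hidem : ∀ (k : Λ) (i : Idx), (e k : Idx →ᵇ B) i * (e k : Idx →ᵇ B) i = (e k : Idx →ᵇ B) i := by
    intro k i
    have := congrArg (fun z : Alg => (z : Idx →ᵇ B) i) (he k).1
    exact this
  have hsa : ∀ (k : Λ) (i : Idx), star ((e k : Idx →ᵇ B) i) = (e k : Idx →ᵇ B) i := by
    intro k i
    have := congrArg (fun z : Alg => (z : Idx →ᵇ B) i) (he k).2
    exact this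
  have hx : ∀ n, (e (l x) : Idx →ᵇ B) ⟨x, y, n⟩ = P 0 := by
    intro n
    apply eq_P (hidem _ _) (hsa _ _) ((hG x).1 _ hyx)
    have h2 : Eb x ⟨x, y, n⟩ = P 0 := by
      rw [Eb_apply]; simp only [Egen, if_true]
    have h3 := ((e (l x) : Idx →ᵇ B) * Eb x - Eb x).norm_coe_le_norm ⟨x, y, n⟩
    rw [BoundedContinuousFunction.sub_apply, BoundedContinuousFunction.mul_apply, h2] at h3
    exact lt_of_le_of_lt h3 (hl x)
  have hy : ∀ n, (e (l y) : Idx →ᵇ B) ⟨x, y, n⟩ = P (tt n) := by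
    intro n
    apply eq_P (hidem _ _) (hsa _ _) ((hG y).2.1 _ hxy')
    have h2 : Eb y ⟨x, y, n⟩ = P (tt n) := by
      rw [Eb_apply]; simp only [Egen, if_neg hxy, if_true]
    have h3 := ((e (l y) : Idx →ᵇ B) * Eb y - Eb y).norm_coe_le_norm ⟨x, y, n⟩
    rw [BoundedContinuousFunction.sub_apply, BoundedContinuousFunction.mul_apply, h2] at h3
    exact lt_of_le_of_lt h3 (hl y)
  have hq : ∀ n, (e m : Idx →ᵇ B) ⟨x, y, n⟩ = 1 := by
    intro n
    have h2 := congrArg (fun z : Alg => (z : Idx →ᵇ B) ⟨x, y, n⟩) (hinc _ _ hm1)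
    have h3 := congrArg (fun z : Alg => (z : Idx →ᵇ B) ⟨x, y, n⟩) (hinc _ _ hm2)
    change (e (l x) : Idx →ᵇ B) ⟨x, y, n⟩ * (e m : Idx →ᵇ B) ⟨x, y, n⟩ =
      (e (l x) : Idx →ᵇ B) ⟨x, y, n⟩ at h2
    change (e (l y) : Idx →ᵇ B) ⟨x, y, n⟩ * (e m : Idx →ᵇ B) ⟨x, y, n⟩ =
      (e (l y) : Idx →ᵇ B) ⟨x, y, n⟩ at h3
    rw [hx n] at h2
    rw [hy n] at h3
    exact P_sup (tt_ne n) h2 h3
  have hL := ((mem_Alg.mp (e m).2).2 x y).1
  simp only [hq, mul_one] at hL
  have := tendsto_nhds_unique hL tendsto_const_nhds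
  exact P0_ne_one (sub_eq_zero.mp this.symm)

theorem exists_approx :
    ∃ (Λ : Type) (_ : Preorder Λ) (_ : IsDirected Λ (· ≤ ·)) (_ : Nonempty Λ) (e : Λ → Alg),
      (∀ i, IsIdempotentElem (e i) ∧ IsSelfAdjoint (e i)) ∧
      ∀ a : Alg, Tendsto (fun i => e i * a) atTop (𝓝 a) ∧
        Tendsto (fun i => a * e i) atTop (𝓝 a) := by
  classical
  have h : ∀ x : Finset Alg × ℕ, ∃ p : Alg, (IsIdempotentElem p ∧ IsSelfAdjoint p) ∧
      ∀ a ∈ x.1, ‖p * a - a‖ ≤ 1 / ((x.2 : ℝ) + 1) ∧ ‖a * p - a‖ ≤ 1 / ((x.2 : ℝ) + 1) :=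
    fun x => exists_proj x.1 (by positivity)
  choose e he he' using h
  refine ⟨Finset Alg × ℕ, inferInstance, inferInstance, inferInstance, e, he, fun a => ?_⟩
  constructor
  · rw [Metric.tendsto_atTop]
    intro ε hε
    obtain ⟨n, hn⟩ := exists_nat_one_div_lt hε
    refine ⟨({a}, n), fun x hx => ?_⟩
    have h1 : a ∈ x.1 := hx.1 (Finset.mem_singleton_self a)
    have h2 : n ≤ x.2 := hx.2
    rw [dist_eq_norm]
    refine lt_of_le_of_lt ((he' x a h1).1) (lt_of_le_of_lt ?_ hn)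
    have : (n : ℝ) ≤ x.2 := by exact_mod_cast h2
    exact one_div_le_one_div_of_le (by positivity) (by linarith)
  · rw [Metric.tendsto_atTop]
    intro ε hε
    obtain ⟨n, hn⟩ := exists_nat_one_div_lt hε
    refine ⟨({a}, n), fun x hx => ?_⟩
    have h1 : a ∈ x.1 := hx.1 (Finset.mem_singleton_self a)
    have h2 : n ≤ x.2 := hx.2
    rw [dist_eq_norm]
    refine lt_of_le_of_lt ((he' x a h1).2) (lt_of_le_of_lt ?_ hn)
    have : (n : ℝ) ≤ x.2 := by exact_mod_cast h2
    exact one_div_le_one_div_of_le (by positivity) (by linarith)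

end Run7.h37.ApproxProj
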