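import Pool.Agent.Run7.h37.ApproxProj

/-! Withdrawn hand-in (the answer is contained in Bice and Koszmider, C*-algebras with and without
<<-increasing approximate units): a C*-algebra with an approximate identity of projections and no
increasing one.  Kept as a library theorem. -/

set_option autoImplicit false
open Filter Topology

namespace Run7.h37.ApproxProjFinal

theorem main :
    ¬ (∀ (A : Type) [NonUnitalCStarAlgebra A],
      (∃ (Λ : Type) (_ : Preorder Λ) (_ : IsDirected Λ (· ≤ ·)) (_ : Nonempty Λ) (e : Λ → A),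
        (∀ i, IsIdempotentElem (e i) ∧ IsSelfAdjoint (e i)) ∧
        ∀ a : A, Tendsto (fun i => e i * a) atTop (𝓝 a) ∧
          Tendsto (fun i => a * e i) atTop (𝓝 a)) →
      (∃ (Λ : Type) (_ : Preorder Λ) (_ : IsDirected Λ (· ≤ ·)) (_ : Nonempty Λ) (e : Λ → A),
        (∀ i, IsIdempotentElem (e i) ∧ IsSelfAdjoint (e i)) ∧
        (∀ i j, i ≤ j → e i * e j = e i) ∧
        ∀ a : A, Tendsto (fun i => e i * a) atTop (𝓝 a) ∧
          Tendsto (fun i => a * e i) atTop (𝓝 a))) := by
  intro h
  exact Run7.h37.ApproxProj.not_exists_increasing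
    (h Run7.h37.ApproxProj.Alg Run7.h37.ApproxProj.exists_approx)

end Run7.h37.ApproxProjFinal
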