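import Mathlib

set_option autoImplicit false

namespace Run7.h37.NullSys

open Finset

/-- The slowly oscillating function used in the example. -/
noncomputable def G (u : ℝ) : ℝ := Real.cos (Real.log (1 + Real.log u))

lemma G_abs_le (u : ℝ) : |G u| ≤ 1 := Real.abs_cos_le_one _

lemma G_diff_aux {u u' : ℝ} (hu : 1 ≤ u) (huu : u ≤ u') :
    |G u' - G u| ≤ (Real.log u' - Real.log u) / (1 + Real.log u) := by
  have h0 : 0 ≤ Real.log u := Real.log_nonneg hu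
  have h1 : Real.log u ≤ Real.log u' := Real.log_le_log (by linarith) huu
  have hp : 0 < 1 + Real.log u := by linarith
  have hp' : 0 < 1 + Real.log u' := by linarith
  refine (Real.abs_cos_sub_cos_le _ _).trans ?_
  rw [← Real.log_div hp'.ne' hp.ne']
  have h2 : 1 ≤ (1 + Real.log u') / (1 + Real.log u) := by
    rw [le_div_iff₀ hp]; linarith
  rw [abs_of_nonneg (Real.log_nonneg h2)]
  refine (Real.log_le_sub_one_of_pos (by positivity)).trans ?_
  rw [div_sub_one hp.ne']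
  apply le_of_eq
  congr 1
  ring

lemma G_diff_aux' {u u' : ℝ} (hu : 1 ≤ u) (huu : u ≤ u') :
    |G u' - G u| ≤ (u' - u) / u := by
  have h0 : 0 ≤ Real.log u := Real.log_nonneg hu
  have hu0 : 0 < u := by linarith
  have hu0' : 0 < u' := by linarith
  have h1 : Real.log u ≤ Real.log u' := Real.log_le_log (by linarith) huu
  refine (G_diff_aux hu huu).trans ?_
  have h3 : Real.log u' - Real.log u ≤ (u' - u) / u := by
    rw [← Real.log_div hu0'.ne' hu0.ne']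
    refine (Real.log_le_sub_one_of_pos (by positivity)).trans ?_
    rw [div_sub_one hu0.ne']
  refine le_trans ?_ h3
  rw [div_le_iff₀ (by linarith)]
  nlinarith

lemma G_lip {u u' c : ℝ} (hu : 1 ≤ u) (hu' : 1 ≤ u') (hc : |u - u'| ≤ c * u)
    (hc' : |u - u'| ≤ c * u') : |G u - G u'| ≤ c := by
  rcases le_total u u' with h | h
  · rw [abs_sub_comm]
    refine (G_diff_aux' hu h).trans ?_
    rw [div_le_iff₀ (by linarith)]
    have := le_abs_self (u' - u)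
    rw [abs_sub_comm] at this
    linarith
  · refine (G_diff_aux' hu' h).trans ?_
    rw [div_le_iff₀ (by linarith)]
    have := le_abs_self (u - u')
    linarith

lemma G_slow {ε : ℝ} (hε : 0 < ε) :
    ∃ R : ℝ, 1 ≤ R ∧ ∀ u u' : ℝ, R ≤ u → u ≤ u' → u' ≤ 4 * u → |G u' - G u| ≤ ε := by
  have h4 : 0 < Real.log 4 := Real.log_pos (by norm_num)
  refine ⟨Real.exp (Real.log 4 / ε), ?_, ?_⟩
  · exact Real.one_le_exp (by positivity)
  · intro u u' h1 h2 h3
    have hR : 1 ≤ Real.exp (Real.log 4 / ε) := Real.one_le_exp (by positivity)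
    have hu : 1 ≤ u := hR.trans h1
    have hu0 : 0 < u := by linarith
    have hu0' : 0 < u' := by linarith
    refine (G_diff_aux hu h2).trans ?_
    have hl : Real.log 4 / ε ≤ Real.log u := by
      rw [Real.le_log_iff_exp_le hu0]; exact h1
    have h5 : Real.log u' ≤ Real.log 4 + Real.log u := by
      rw [← Real.log_mul (by norm_num) hu0.ne']
      exact Real.log_le_log hu0' h3
    have hlu : 0 ≤ Real.log u := Real.log_nonneg hu
    rw [div_le_iff₀ (by linarith)]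
    have h6 : Real.log 4 ≤ ε * Real.log u := by
      rw [div_le_iff₀ hε] at hl; linarith
    nlinarith

section perc

variable {H : Type*} [NormedAddCommGroup H] [InnerProductSpace ℝ H]

/-- One correction step. -/
def stepv {ι : Type*} (η : ℝ) (h : ι → H) : Option (ι × Bool) → H
  | none => 0
  | some (j, true) => η • h j
  | some (j, false) => -(η • h j)

/-- The vector coded by a finite list of correction steps. -/
def W {ι : Type*} (η : ℝ) (h : ι → H) {T : ℕ} (c : Fin T → Option (ι × Bool)) : H :=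
  ∑ t, stepv η h (c t)

lemma W_snoc {ι : Type*} (η : ℝ) (h : ι → H) {T : ℕ} (c : Fin T → Option (ι × Bool))
    (x : Option (ι × Bool)) :
    W η h (Fin.snoc (α := fun _ => Option (ι × Bool)) c x) = W η h c + stepv η h x := by
  unfold W
  rw [Fin.sum_univ_castSucc]
  simp

lemma perceptron {ι : Type*} {η : ℝ} (hη : 0 < η) (h : ι → H) (hh : ∀ j, ‖h j‖ ≤ 1) (z : H)
    {R2 : ℝ} (hz : ‖z‖ ^ 2 ≤ R2) (T : ℕ) :
    ∃ c : Fin T → Option (ι × Bool),
      (∀ j, |inner ℝ (z - W η h c) (h j)| < η) ∨ ‖z - W η h c‖ ^ 2 ≤ R2 - T * η ^ 2 := by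
  induction T with
  | zero =>
    refine ⟨fun _ => none, Or.inr ?_⟩
    simp [W, hz]
  | succ T ih =>
    obtain ⟨c, hc⟩ := ih
    by_cases hgood : ∀ j, |inner ℝ (z - W η h c) (h j)| < η
    · refine ⟨Fin.snoc (α := fun _ => Option (ι × Bool)) c none, Or.inl ?_⟩
      intro j
      rw [W_snoc]
      simpa [stepv] using hgood j
    · have hc2 : ‖z - W η h c‖ ^ 2 ≤ R2 - T * η ^ 2 := by
        rcases hc with hc | hc
        · exact absurd hc hgood
        · exact hc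
      push Not at hgood
      obtain ⟨j, hj⟩ := hgood
      have hhj : ‖h j‖ ^ 2 ≤ 1 := by
        have := hh j
        have h0 := norm_nonneg (h j)
        nlinarith
      rcases le_abs.mp hj with hj | hj
      · refine ⟨Fin.snoc (α := fun _ => Option (ι × Bool)) c (some (j, true)), Or.inr ?_⟩
        rw [W_snoc]
        have e1 : z - (W η h c + stepv η h (some (j, true))) = (z - W η h c) - η • h j := by
          simp [stepv]; abel
        rw [e1, norm_sub_sq_real, inner_smul_right, norm_smul, mul_pow, Real.norm_eq_abs, sq_abs]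
        push_cast
        nlinarith [mul_le_mul_of_nonneg_left hj hη.le,
          mul_le_mul_of_nonneg_left hhj (sq_nonneg η)]
      · refine ⟨Fin.snoc (α := fun _ => Option (ι × Bool)) c (some (j, false)), Or.inr ?_⟩
        rw [W_snoc]
        have e1 : z - (W η h c + stepv η h (some (j, false))) = (z - W η h c) + η • h j := by
          simp [stepv]; abel
        rw [e1, norm_add_sq_real, inner_smul_right, norm_smul, mul_pow, Real.norm_eq_abs, sq_abs]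
        push_cast
        nlinarith [mul_le_mul_of_nonneg_left hj hη.le,
          mul_le_mul_of_nonneg_left hhj (sq_nonneg η)]

lemma perceptron' {ι : Type*} {η : ℝ} (hη : 0 < η) (h : ι → H) (hh : ∀ j, ‖h j‖ ≤ 1) (z : H)
    {R2 : ℝ} (hz : ‖z‖ ^ 2 ≤ R2) {T : ℕ} (hT : R2 < T * η ^ 2) :
    ∃ c : Fin T → Option (ι × Bool), ∀ j, |inner ℝ (z - W η h c) (h j)| < η := by
  obtain ⟨c, hc | hc⟩ := perceptron hη h hh z hz T
  · exact ⟨c, hc⟩
  · exfalso
    have := sq_nonneg ‖z - W η h c‖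
    linarith

lemma sq_add_le (a b : ℝ) : (a + b) ^ 2 ≤ 2 * a ^ 2 + 2 * b ^ 2 := by
  nlinarith [sq_nonneg (a - b)]

omit [InnerProductSpace ℝ H] in
lemma geo_up (z p : H) : 1 + ‖z + p‖ ^ 2 ≤ 4 * max (1 + ‖z‖ ^ 2) (1 + ‖p‖ ^ 2) := by
  have h1 : ‖z + p‖ ^ 2 ≤ (‖z‖ + ‖p‖) ^ 2 := by
    gcongr; exact norm_add_le z p
  have h2 := sq_add_le ‖z‖ ‖p‖
  have h3 := le_max_left (1 + ‖z‖ ^ 2) (1 + ‖p‖ ^ 2)
  have h4 := le_max_right (1 + ‖z‖ ^ 2) (1 + ‖p‖ ^ 2)
  nlinarith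

omit [InnerProductSpace ℝ H] in
lemma geo_B (z p : H) (hmin : ‖z‖ ≤ ‖z + p‖) : 1 + ‖p‖ ^ 2 ≤ 4 * (1 + ‖z + p‖ ^ 2) := by
  have h0 : ‖p‖ ≤ ‖z + p‖ + ‖z‖ := by
    have := norm_sub_le (z + p) z
    simpa using this
  have h1 : ‖p‖ ≤ 2 * ‖z + p‖ := by linarith
  have h2 : ‖p‖ ^ 2 ≤ (2 * ‖z + p‖) ^ 2 := by gcongr
  nlinarith

omit [InnerProductSpace ℝ H] in
lemma geo_A (z p : H) (hmin : ‖z‖ ≤ ‖z + p‖) : 1 + ‖z‖ ^ 2 ≤ 1 + ‖z + p‖ ^ 2 := by
  have : ‖z‖ ^ 2 ≤ ‖z + p‖ ^ 2 := by gcongr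
  linarith

omit [InnerProductSpace ℝ H] in
lemma geo_G {ε R : ℝ} (hR1 : 1 ≤ R)
    (hR : ∀ u u' : ℝ, R ≤ u → u ≤ u' → u' ≤ 4 * u → |G u' - G u| ≤ ε)
    (z p : H) (hmin : ‖z‖ ≤ ‖z + p‖) (hA : R ≤ 1 + ‖z‖ ^ 2) :
    |G (1 + ‖z + p‖ ^ 2) - G (max (1 + ‖z‖ ^ 2) (1 + ‖p‖ ^ 2))| ≤ ε := by
  have hAu := geo_A z p hmin
  have hBu := geo_B z p hmin
  have hup := geo_up z p
  have hm : max (1 + ‖z‖ ^ 2) (1 + ‖p‖ ^ 2) ≤ 4 * (1 + ‖z + p‖ ^ 2) := by
    apply max_le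
    · linarith
    · exact hBu
  rcases le_total (1 + ‖z + p‖ ^ 2) (max (1 + ‖z‖ ^ 2) (1 + ‖p‖ ^ 2)) with h | h
  · rw [abs_sub_comm]
    exact hR _ _ (hA.trans hAu) h hm
  · exact hR _ _ (hA.trans (le_max_left _ _)) h hup

/-- The finite set of codes. -/
abbrev Data (ι : Type) (N T : ℕ) : Type :=
  (ι × ι × Fin N) ⊕ (ι × Fin N × (Fin T → Option (ι × Bool)))

/-- The normalised directions. -/
noncomputable def hdir {ι : Type} (q : ι → H) (j0 j : ι) : H :=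
  (1 / (1 + ‖q j - q j0‖ ^ 2)) • (q j - q j0)

lemma hdir_norm {ι : Type} (q : ι → H) (j0 j : ι) : ‖hdir q j0 j‖ ≤ 1 := by
  unfold hdir
  rw [norm_smul, Real.norm_eq_abs, abs_of_pos (by positivity)]
  rw [div_mul_eq_mul_div, one_mul, div_le_one (by positivity)]
  nlinarith [sq_nonneg (‖q j - q j0‖ - 1), norm_nonneg (q j - q j0)]

/-- `v` is coded by `d`. -/
def IsCode {ι : Type} {N T : ℕ} (q : ι → H) (R η : ℝ) (v : H) : Data ι N T → Prop
  | Sum.inl (j0, j1, k) =>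
      (∀ j, ‖v + q j0‖ ≤ ‖v + q j‖) ∧ R ≤ 1 + ‖v + q j0‖ ^ 2 ∧
      (∀ j, 1 + ‖q j - q j0‖ ^ 2 ≤ 1 + ‖v + q j0‖ ^ 2 ↔
        1 + ‖q j - q j0‖ ^ 2 ≤ 1 + ‖q j1 - q j0‖ ^ 2) ∧
      ⌊(G (1 + ‖v + q j0‖ ^ 2) + 1) / η⌋₊ = (k : ℕ)
  | Sum.inr (j0, k, c) =>
      (∀ j, ‖v + q j0‖ ≤ ‖v + q j‖) ∧ 1 + ‖v + q j0‖ ^ 2 < R ∧
      ⌊(1 + ‖v + q j0‖ ^ 2) / η⌋₊ = (k : ℕ) ∧
      ∀ j, |inner ℝ ((v + q j0) - W η (hdir q j0) c) (hdir q j0 j)| < η

lemma floor_close {a b η : ℝ} (hη : 0 < η) (ha : 0 ≤ a) (hb : 0 ≤ b) {k : ℕ}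
    (h1 : ⌊a / η⌋₊ = k) (h2 : ⌊b / η⌋₊ = k) : |a - b| ≤ η := by
  have ha1 := Nat.floor_le (div_nonneg ha hη.le)
  have hb1 := Nat.floor_le (div_nonneg hb hη.le)
  have ha2 := Nat.lt_floor_add_one (a / η)
  have hb2 := Nat.lt_floor_add_one (b / η)
  rw [h1] at ha1 ha2
  rw [h2] at hb1 hb2
  rw [le_div_iff₀ hη] at ha1 hb1
  rw [div_lt_iff₀ hη] at ha2 hb2
  rw [abs_le]
  constructor <;> linarith

lemma isCode_close {ι : Type} {N T : ℕ} {q : ι → H} {R η : ℝ} (hη : 0 < η)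
    (hR1 : 1 ≤ R)
    (hR : ∀ u u' : ℝ, R ≤ u → u ≤ u' → u' ≤ 4 * u → |G u' - G u| ≤ η)
    {v v' : H} {d : Data ι N T} (hv : IsCode q R η v d) (hv' : IsCode q R η v' d) (j : ι) :
    |G (1 + ‖v + q j‖ ^ 2) - G (1 + ‖v' + q j‖ ^ 2)| ≤ 17 * η := by
  rcases d with ⟨j0, j1, k⟩ | ⟨j0, k, c⟩
  · obtain ⟨hm, hA, hB, hk⟩ := hv
    obtain ⟨hm', hA', hB', hk'⟩ := hv'
    have e1 : v + q j = (v + q j0) + (q j - q j0) := by abel
    have e1' : v' + q j = (v' + q j0) + (q j - q j0) := by abel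
    have g1 := geo_G hR1 hR (v + q j0) (q j - q j0) (by rw [← e1]; exact hm j) hA
    have g1' := geo_G hR1 hR (v' + q j0) (q j - q j0) (by rw [← e1']; exact hm' j) hA'
    rw [← e1] at g1
    rw [← e1'] at g1'
    have gA : |(G (1 + ‖v + q j0‖ ^ 2) + 1) - (G (1 + ‖v' + q j0‖ ^ 2) + 1)| ≤ η := by
      refine floor_close hη ?_ ?_ hk hk'
      · have := G_abs_le (1 + ‖v + q j0‖ ^ 2)
        rw [abs_le] at this; linarith
      · have := G_abs_le (1 + ‖v' + q j0‖ ^ 2)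
        rw [abs_le] at this; linarith
    by_cases hj : 1 + ‖q j - q j0‖ ^ 2 ≤ 1 + ‖q j1 - q j0‖ ^ 2
    · have hj1 := (hB j).mpr hj
      have hj1' := (hB' j).mpr hj
      rw [max_eq_left hj1] at g1
      rw [max_eq_left hj1'] at g1'
      rw [abs_le] at *
      constructor <;> linarith [g1.1, g1.2, g1'.1, g1'.2, gA.1, gA.2]
    · have hj1 : ¬ (1 + ‖q j - q j0‖ ^ 2 ≤ 1 + ‖v + q j0‖ ^ 2) := fun h => hj ((hB j).mp h)
      have hj1' : ¬ (1 + ‖q j - q j0‖ ^ 2 ≤ 1 + ‖v' + q j0‖ ^ 2) := fun h => hj ((hB' j).mp h)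
      push Not at hj1 hj1'
      rw [max_eq_right hj1.le] at g1
      rw [max_eq_right hj1'.le] at g1'
      rw [abs_le] at *
      constructor <;> linarith [g1.1, g1.2, g1'.1, g1'.2]
  · obtain ⟨hm, hA, hk, hc⟩ := hv
    obtain ⟨hm', hA', hk', hc'⟩ := hv'
    have e1 : v + q j = (v + q j0) + (q j - q j0) := by abel
    have e1' : v' + q j = (v' + q j0) + (q j - q j0) := by abel
    set z := v + q j0 with hz
    set z' := v' + q j0 with hz'
    set p := q j - q j0 with hp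
    have hBu := geo_B z p (by rw [← e1]; exact hm j)
    have hBu' := geo_B z' p (by rw [← e1']; exact hm' j)
    have hAA : |(1 + ‖z‖ ^ 2) - (1 + ‖z'‖ ^ 2)| ≤ η :=
      floor_close hη (by positivity) (by positivity) hk hk'
    have hin : |inner ℝ (z - z') (hdir q j0 j)| ≤ 2 * η := by
      have e2 : z - z' = (z - W η (hdir q j0) c) - (z' - W η (hdir q j0) c) := by abel
      rw [e2, inner_sub_left]
      have h1 := hc j
      have h2 := hc' j
      rw [abs_lt] at h1 h2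
      rw [abs_le]
      constructor <;> linarith [h1.1, h1.2, h2.1, h2.2]
    have hin2 : |inner ℝ (z - z') p| ≤ (1 + ‖p‖ ^ 2) * (2 * η) := by
      have e3 : inner ℝ (z - z') p = (1 + ‖p‖ ^ 2) * inner ℝ (z - z') (hdir q j0 j) := by
        unfold hdir
        rw [← hp, inner_smul_right]
        field_simp
      rw [e3, abs_mul, abs_of_pos (show (0:ℝ) < 1 + ‖p‖ ^ 2 by positivity)]
      gcongr
    rw [e1, e1']
    have key : |(1 + ‖z + p‖ ^ 2) - (1 + ‖z' + p‖ ^ 2)| ≤ η + 2 * ((1 + ‖p‖ ^ 2) * (2 * η)) := by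
      have e4 : (1 + ‖z + p‖ ^ 2) - (1 + ‖z' + p‖ ^ 2)
          = ((1 + ‖z‖ ^ 2) - (1 + ‖z'‖ ^ 2)) + 2 * inner ℝ (z - z') p := by
        have a1 := norm_add_sq_real z p
        have a2 := norm_add_sq_real z' p
        have a3 : inner ℝ (z - z') p = inner ℝ z p - inner ℝ z' p := inner_sub_left _ _ _
        rw [a1, a2, a3]
        ring
      rw [e4]
      refine (abs_add_le _ _).trans ?_
      rw [abs_mul, abs_two]
      linarith
    have hu1 : (1:ℝ) ≤ 1 + ‖z + p‖ ^ 2 := by nlinarith [sq_nonneg ‖z + p‖]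
    have hu1' : (1:ℝ) ≤ 1 + ‖z' + p‖ ^ 2 := by nlinarith [sq_nonneg ‖z' + p‖]
    apply G_lip hu1 hu1'
    · refine key.trans ?_
      nlinarith
    · refine key.trans ?_
      nlinarith

lemma exists_code {ι : Type} [Fintype ι] [Nonempty ι] {N T : ℕ} (q : ι → H) {R η : ℝ}
    (hη : 0 < η) (hN1 : 2 / η < N) (hN2 : R / η < N) (hT : R < T * η ^ 2) (v : H) :
    ∃ d : Data ι N T, IsCode q R η v d := by
  obtain ⟨j0, -, hj0⟩ := Finset.exists_min_image (Finset.univ : Finset ι)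
    (fun j => ‖v + q j‖) Finset.univ_nonempty
  have hj0' : ∀ j, ‖v + q j0‖ ≤ ‖v + q j‖ := fun j => hj0 j (Finset.mem_univ j)
  by_cases hA : R ≤ 1 + ‖v + q j0‖ ^ 2
  · classical
    obtain ⟨j1, hj1, hj1'⟩ := Finset.exists_max_image
      (Finset.univ.filter fun j => 1 + ‖q j - q j0‖ ^ 2 ≤ 1 + ‖v + q j0‖ ^ 2)
      (fun j => 1 + ‖q j - q j0‖ ^ 2) ⟨j0, by simp⟩
    have hlt : ⌊(G (1 + ‖v + q j0‖ ^ 2) + 1) / η⌋₊ < N := by
      have hb := G_abs_le (1 + ‖v + q j0‖ ^ 2)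
      rw [abs_le] at hb
      rw [Nat.floor_lt (div_nonneg (by linarith) hη.le)]
      refine lt_of_le_of_lt ?_ hN1
      gcongr
      linarith
    refine ⟨Sum.inl (j0, j1, ⟨_, hlt⟩), hj0', hA, ?_, rfl⟩
    intro j
    constructor
    · intro h
      exact hj1' j (by simpa using h)
    · intro h
      have h2 : 1 + ‖q j1 - q j0‖ ^ 2 ≤ 1 + ‖v + q j0‖ ^ 2 := by
        have := (Finset.mem_filter.mp hj1).2
        exact this
      exact h.trans h2
  · push Not at hA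
    have hlt : ⌊(1 + ‖v + q j0‖ ^ 2) / η⌋₊ < N := by
      rw [Nat.floor_lt (by positivity)]
      refine lt_of_le_of_lt ?_ hN2
      gcongr
    obtain ⟨c, hc⟩ := perceptron' hη (hdir q j0) (hdir_norm q j0) (v + q j0)
      (R2 := R) (by linarith) hT
    exact ⟨Sum.inr (j0, ⟨_, hlt⟩, c), hj0', hA, rfl, hc⟩

/-- Polynomial covering bound for the functions `s ↦ G (1 + ‖v + q s‖ ^ 2)`. -/
theorem cover {ε : ℝ} (hε : 0 < ε) :
    ∃ N T : ℕ, ∀ (ι : Type) [Fintype ι] [Nonempty ι] (q : ι → H) (α : Type)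
      (V : Finset α) (v : α → H),
      (∀ x ∈ V, ∀ y ∈ V, x ≠ y →
        ∃ j, ε ≤ |G (1 + ‖v x + q j‖ ^ 2) - G (1 + ‖v y + q j‖ ^ 2)|) →
      V.card ≤ Fintype.card (Data ι N T) := by
  have hη : 0 < ε / 18 := by positivity
  obtain ⟨R, hR1, hR⟩ := G_slow hη
  obtain ⟨N, hN⟩ := exists_nat_gt (max (2 / (ε / 18)) (R / (ε / 18)))
  obtain ⟨T, hT⟩ := exists_nat_gt (R / (ε / 18) ^ 2)
  refine ⟨N, T, ?_⟩
  intro ι _ _ q α V v hV
  have hT' : R < T * (ε / 18) ^ 2 := by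
    rwa [div_lt_iff₀ (by positivity)] at hT
  have hex : ∀ x : α, ∃ d : Data ι N T, IsCode q R (ε / 18) (v x) d := fun x =>
    exists_code q hη (lt_of_le_of_lt (le_max_left _ _) hN)
      (lt_of_le_of_lt (le_max_right _ _) hN) hT' (v x)
  choose D hD using hex
  rw [← Finset.card_univ]
  refine Finset.card_le_card_of_injOn D (fun x _ => Finset.mem_coe.mpr (Finset.mem_univ _)) ?_
  intro x hx y hy hxy
  by_contra hne
  obtain ⟨j, hj⟩ := hV x hx y hy hne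
  have h2 := isCode_close hη hR1 hR (hD x) (by rw [hxy]; exact hD y) j
  linarith

end perc

end Run7.h37.NullSys
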