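import Pool.Agent.Run7.h37.NullSystem

set_option autoImplicit false
open Filter Topology
open scoped PiCountable

namespace Run7.h37.NullSys

lemma dist_lt_of_coords {ε : ℝ} (hε : 0 < ε) :
    ∃ J : ℕ, 0 < J ∧ ∃ ε' : ℝ, 0 < ε' ∧
      ∀ x y : ℕ → ℝ, (∀ j < J, |x j - y j| < ε') → dist x y < ε := by
  obtain ⟨J0, hJ0⟩ := exists_pow_lt_of_lt_one (show 0 < ε / 4 by positivity)
    (show (1 / 2 : ℝ) < 1 by norm_num)
  refine ⟨J0 + 1, Nat.succ_pos _, ε / (4 * (J0 + 1)), by positivity, ?_⟩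
  intro x y h
  rw [PiCountable.dist_eq_tsum]
  have hs := PiCountable.dist_summable x y
  rw [← hs.sum_add_tsum_nat_add (J0 + 1)]
  have h1 : ∑ i ∈ Finset.range (J0 + 1), min ((2 : ℝ)⁻¹ ^ Encodable.encode i) (dist (x i) (y i))
      ≤ ε / 4 := by
    calc ∑ i ∈ Finset.range (J0 + 1), min ((2 : ℝ)⁻¹ ^ Encodable.encode i) (dist (x i) (y i))
        ≤ ∑ i ∈ Finset.range (J0 + 1), ε / (4 * (J0 + 1)) := by
          apply Finset.sum_le_sum
          intro i hi
          refine (min_le_right _ _).trans ?_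
          rw [Real.dist_eq]
          exact (h i (Finset.mem_range.mp hi)).le
      _ = ε / 4 := by
          rw [Finset.sum_const, Finset.card_range, nsmul_eq_mul]
          push_cast
          field_simp
  have hgs : Summable fun i : ℕ => (2 : ℝ)⁻¹ ^ (J0 + 1) * (2 : ℝ)⁻¹ ^ i :=
    (summable_geometric_of_lt_one (by norm_num) (by norm_num)).mul_left _
  have hs2 := (summable_nat_add_iff (J0 + 1)).mpr hs
  have h2 : ∑' i, min ((2 : ℝ)⁻¹ ^ Encodable.encode (i + (J0 + 1)))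
      (dist (x (i + (J0 + 1))) (y (i + (J0 + 1)))) ≤ ∑' i : ℕ, (2 : ℝ)⁻¹ ^ (J0 + 1) * (2 : ℝ)⁻¹ ^ i := by
    refine Summable.tsum_le_tsum (fun i => ?_) hs2 hgs
    refine (min_le_left _ _).trans ?_
    rw [Encodable.encode_nat, add_comm i, pow_add]
  have h3 : ∑' i : ℕ, (2 : ℝ)⁻¹ ^ (J0 + 1) * (2 : ℝ)⁻¹ ^ i = (1 / 2) ^ J0 := by
    rw [tsum_mul_left, tsum_geometric_of_lt_one (by norm_num) (by norm_num), pow_succ]
    norm_num
    ring
  rw [h3] at h2
  linarith

lemma approx_orb (x : X) (M : ℕ) {η : ℝ} (hη : 0 < η) :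
    ∃ m : ℕ, ∀ s < M, |x.1 s - f (m + s)| < η := by
  obtain ⟨u, hu, hlim⟩ := mem_closure_iff_seq_limit.mp x.2
  rw [tendsto_pi_nhds] at hlim
  have h1 : ∀ᶠ i in atTop, ∀ s ∈ Finset.range M, |u i s - x.1 s| < η := by
    rw [Filter.eventually_all_finset]
    intro s _
    have := (hlim s).eventually (Metric.ball_mem_nhds _ hη)
    refine this.mono fun i hi => ?_
    rwa [Real.dist_eq] at hi
  obtain ⟨i, hi⟩ := h1.exists
  obtain ⟨m, hm⟩ := hu i
  refine ⟨m, fun s hs => ?_⟩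
  have h2 := hi s (Finset.mem_range.mpr hs)
  rw [← hm] at h2
  rw [abs_sub_comm]
  exact h2

lemma card_bound {n J N T : ℕ} (hn : 1 ≤ n) :
    Fintype.card (Data (Fin n × Fin J) N T) ≤
      (J ^ 2 * N + J * N * (2 * J + 1) ^ T) * n ^ (T + 2) := by
  have h0 : Fintype.card (Data (Fin n × Fin J) N T) =
      (n * J) * ((n * J) * N) + (n * J) * (N * (n * J * 2 + 1) ^ T) := by
    simp [Data]
  rw [h0, add_mul]
  apply Nat.add_le_add
  · have h1 : n ^ 2 ≤ n ^ (T + 2) := Nat.pow_le_pow_right hn (by omega)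
    calc (n * J) * ((n * J) * N) = J ^ 2 * N * n ^ 2 := by ring
      _ ≤ J ^ 2 * N * n ^ (T + 2) := Nat.mul_le_mul_left _ h1
  · have h1 : n * J * 2 + 1 ≤ n * (2 * J + 1) := by nlinarith
    have h2 : (n * J * 2 + 1) ^ T ≤ (n * (2 * J + 1)) ^ T := Nat.pow_le_pow_left h1 T
    have h3 : n ^ (T + 1) ≤ n ^ (T + 2) := Nat.pow_le_pow_right hn (by omega)
    calc (n * J) * (N * (n * J * 2 + 1) ^ T) ≤ (n * J) * (N * (n * (2 * J + 1)) ^ T) := by
          gcongr
      _ = J * N * (2 * J + 1) ^ T * n ^ (T + 1) := by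
          rw [mul_pow]; ring
      _ ≤ J * N * (2 * J + 1) ^ T * n ^ (T + 2) := Nat.mul_le_mul_left _ h3

lemma asym (C k : ℕ) {δ : ℝ} (hδ : 0 < δ) :
    ∀ᶠ n : ℕ in atTop, (C : ℝ) * (n : ℝ) ^ k ≤ Real.exp (δ * n) := by
  have h := isLittleO_pow_exp_pos_mul_atTop (k := k) hδ
  have h1 := h.def (show (0 : ℝ) < 1 / (C + 1) by positivity)
  have h2 := tendsto_natCast_atTop_atTop.eventually h1
  filter_upwards [h2] with n hn
  rw [Real.norm_eq_abs, Real.norm_eq_abs, abs_of_nonneg (by positivity), abs_of_pos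
    (Real.exp_pos _)] at hn
  have hC : (0 : ℝ) ≤ C := by positivity
  have he := Real.exp_pos (δ * n)
  calc (C : ℝ) * (n : ℝ) ^ k ≤ C * (1 / (C + 1) * Real.exp (δ * n)) := by gcongr
    _ = (C / (C + 1)) * Real.exp (δ * n) := by ring
    _ ≤ 1 * Real.exp (δ * n) := by
        gcongr
        rw [div_le_one (by positivity)]
        linarith
    _ = Real.exp (δ * n) := one_mul _

theorem null_T (a : ℕ → ℕ) (ha : StrictMono a) (ε : ℝ) (hε : 0 < ε) (δ : ℝ) (hδ : 0 < δ) :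
    ∀ᶠ n in atTop, ∀ F : Finset X,
      (∀ x ∈ F, ∀ y ∈ F, x ≠ y → ∃ i < n, ε ≤ dist (T^[a i] x) (T^[a i] y)) →
      (F.card : ℝ) ≤ Real.exp (δ * n) := by
  obtain ⟨J, hJ, ε', hε', hd⟩ := dist_lt_of_coords hε
  obtain ⟨N, Tt, hcov⟩ := cover (H := HS) (show 0 < ε' / 2 by positivity)
  filter_upwards [asym (J ^ 2 * N + J * N * (2 * J + 1) ^ Tt) (Tt + 2) hδ,
    eventually_ge_atTop 1] with n hn hn1 F hF
  choose m hm using fun x : X => approx_orb x (a n + J) (show 0 < ε' / 4 by positivity)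
  have : Nonempty (Fin n × Fin J) := ⟨(⟨0, hn1⟩, ⟨0, hJ⟩)⟩
  have hcard := hcov (Fin n × Fin J) (fun p => E (((a p.1 + p.2 : ℕ)) : ℤ)) X F
    (fun x => -E (-(m x : ℤ))) (by
      intro x hx y hy hxy
      obtain ⟨i, hi, hdist⟩ := hF x hx y hy hxy
      by_contra hcon
      push Not at hcon
      have hlt : dist (T^[a i] x) (T^[a i] y) < ε := by
        rw [Subtype.dist_eq]
        apply hd
        intro j hj
        rw [T_iter, T_iter]
        have hai : a i < a n := ha hi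
        have h1 := hm x (j + a i) (by omega)
        have h2 := hm y (j + a i) (by omega)
        have h3 := hcon (⟨i, hi⟩, ⟨j, hj⟩)
        simp only at h3
        rw [← f_add, ← f_add] at h3
        rw [add_comm (a i) j] at h3
        rw [abs_lt] at h1 h2 h3 ⊢
        constructor <;> linarith [h1.1, h1.2, h2.1, h2.2, h3.1, h3.2]
      linarith)
  have h2 := hcard.trans (card_bound hn1)
  have h3 : (F.card : ℝ) ≤
      ((J ^ 2 * N + J * N * (2 * J + 1) ^ Tt : ℕ) : ℝ) * (n : ℝ) ^ (Tt + 2) := by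
    exact_mod_cast h2
  exact h3.trans hn

end Run7.h37.NullSys
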