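import Pool.Agent.Run7.h37.NullCover

set_option autoImplicit false
open Filter Topology

namespace Run7.h37.NullSys

noncomputable def U (k : ℕ) : ℝ := Real.exp (Real.exp (Real.pi * k) - 1)

noncomputable def w (k : ℕ) : ℝ := Real.sqrt (U k - 1) / 2

lemma one_le_exp_pi (k : ℕ) : 1 ≤ Real.exp (Real.pi * k) :=
  Real.one_le_exp (by positivity)

lemma one_le_U (k : ℕ) : 1 ≤ U k := by
  unfold U
  apply Real.one_le_exp
  have := one_le_exp_pi k
  linarith

lemma w_nonneg (k : ℕ) : 0 ≤ w k := by unfold w; positivity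

lemma w_zero : w 0 = 0 := by simp [w, U]

lemma w_sq (k : ℕ) : (2 * w k) ^ 2 = U k - 1 := by
  unfold w
  have h : 2 * (Real.sqrt (U k - 1) / 2) = Real.sqrt (U k - 1) := by ring
  rw [h, Real.sq_sqrt]
  have := one_le_U k
  linarith

noncomputable def b : ℕ → ℕ
  | 0 => 2
  | k + 1 => 2 * b k * ((⌈w (k + 1)⌉₊ + 1) * 2 ^ (k + 1))

lemma b_succ (k : ℕ) : b (k + 1) = 2 * b k * ((⌈w (k + 1)⌉₊ + 1) * 2 ^ (k + 1)) := rfl

lemma b_pos (k : ℕ) : 0 < b k := by
  induction k with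
  | zero => simp [b]
  | succ k ih => rw [b_succ]; positivity

lemma two_dvd_b (k : ℕ) : 2 ∣ b k := by
  cases k with
  | zero => simp [b]
  | succ k => rw [b_succ, mul_assoc]; exact Dvd.intro _ rfl

lemma b_dvd {j k : ℕ} (h : j < k) : 2 * b j ∣ b k := by
  induction k with
  | zero => omega
  | succ k ih =>
    rw [b_succ]
    rcases Nat.lt_succ_iff_lt_or_eq.mp h with h' | h'
    · have h1 := ih h'
      have h2 : b k ∣ 2 * b k * ((⌈w (k + 1)⌉₊ + 1) * 2 ^ (k + 1)) :=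
        Dvd.dvd.mul_right (Dvd.intro_left _ rfl) _
      exact h1.trans h2
    · subst h'
      exact Dvd.intro _ rfl

lemma b_strictMono : StrictMono b := by
  apply strictMono_nat_of_lt_succ
  intro k
  have h1 := Nat.le_of_dvd (b_pos (k + 1)) (b_dvd (Nat.lt_succ_self k))
  have h2 := b_pos k
  omega

lemma b_growth {j k : ℕ} (h : j < k) : w k * b j ≤ b k * (1 / 2) ^ k := by
  obtain ⟨k, rfl⟩ : ∃ k', k = k' + 1 := ⟨k - 1, by omega⟩
  have hj : b j ≤ b k := b_strictMono.monotone (by omega)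
  have hj' : (b j : ℝ) ≤ b k := by exact_mod_cast hj
  have hw := w_nonneg (k + 1)
  have hc : w (k + 1) ≤ (⌈w (k + 1)⌉₊ : ℝ) := Nat.le_ceil _
  have hb0 : (0 : ℝ) < b k := by exact_mod_cast b_pos k
  have e1 : (b (k + 1) : ℝ) * (1 / 2) ^ (k + 1) = 2 * b k * (⌈w (k + 1)⌉₊ + 1) := by
    rw [b_succ]
    push_cast
    rw [div_pow, one_pow]
    field_simp
  rw [e1]
  calc w (k + 1) * b j ≤ w (k + 1) * b k := by gcongr
    _ ≤ (⌈w (k + 1)⌉₊ : ℝ) * b k := by gcongr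
    _ ≤ 2 * b k * (⌈w (k + 1)⌉₊ + 1) := by
        have : (0:ℝ) ≤ (⌈w (k + 1)⌉₊ : ℝ) := by positivity
        nlinarith

/-- The coordinates of the Hilbert space orbit. -/
noncomputable def e (n : ℤ) (k : ℕ) : ℂ :=
  (w k : ℂ) * (Complex.exp (Complex.I * ((2 * Real.pi * n / b k : ℝ) : ℂ)) - 1)

lemma e_norm_le (n : ℤ) (k : ℕ) : ‖e n k‖ ≤ w k * |2 * Real.pi * n / b k| := by
  unfold e
  rw [norm_mul]
  have h1 : ‖(w k : ℂ)‖ = w k := by
    rw [Complex.norm_real, Real.norm_eq_abs, abs_of_nonneg (w_nonneg k)]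
  rw [h1]
  have h2 := Real.norm_exp_I_mul_ofReal_sub_one_le (x := 2 * Real.pi * n / b k)
  rw [Real.norm_eq_abs] at h2
  exact mul_le_mul_of_nonneg_left h2 (w_nonneg k)

lemma e_norm_le_of_lt {j k : ℕ} (h : j < k) (n : ℤ) {c : ℝ} (hn : |(n : ℝ)| ≤ c * b j) :
    ‖e n k‖ ≤ 2 * Real.pi * c * (1 / 2) ^ k := by
  refine (e_norm_le n k).trans ?_
  have hb : (0 : ℝ) < b k := by exact_mod_cast b_pos k
  have hbj : (0 : ℝ) < b j := by exact_mod_cast b_pos j
  have hpi := Real.pi_pos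
  rw [abs_div, abs_mul, abs_of_pos (by positivity : (0:ℝ) < 2 * Real.pi), abs_of_pos hb]
  rw [mul_div_assoc', div_le_iff₀ hb]
  have hg := b_growth h
  have hc : 0 ≤ c := by
    have := (abs_nonneg (n : ℝ)).trans hn
    by_contra hc
    push Not at hc
    nlinarith
  calc w k * (2 * Real.pi * |(n : ℝ)|) ≤ w k * (2 * Real.pi * (c * b j)) := by
        have := w_nonneg k
        gcongr
    _ = (2 * Real.pi * c) * (w k * b j) := by ring
    _ ≤ (2 * Real.pi * c) * (b k * (1 / 2) ^ k) := by gcongr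
    _ = 2 * Real.pi * c * (1 / 2) ^ k * b k := by ring

lemma e_norm_le_all (n : ℤ) (k : ℕ) : ‖e n k‖ ≤ 2 * Real.pi * |(n : ℝ)| * (1 / 2) ^ k := by
  rcases Nat.eq_zero_or_pos k with h | h
  · subst h
    have : e n 0 = 0 := by simp [e, w_zero]
    rw [this, norm_zero]
    have := Real.pi_pos
    positivity
  · apply e_norm_le_of_lt h n
    have : (1 : ℝ) ≤ b 0 := by exact_mod_cast b_pos 0
    nlinarith [abs_nonneg (n : ℝ)]

lemma e_eq_zero {n : ℤ} {k : ℕ} (h : (b k : ℤ) ∣ n) : e n k = 0 := by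
  obtain ⟨d, rfl⟩ := h
  unfold e
  have hb : (b k : ℝ) ≠ 0 := by exact_mod_cast (b_pos k).ne'
  have h1 : (2 * Real.pi * (((b k : ℤ) * d : ℤ) : ℝ) / b k : ℝ) = 2 * Real.pi * d := by
    push_cast
    field_simp
  rw [h1]
  have h2 : Complex.I * ((2 * Real.pi * d : ℝ) : ℂ) = d * (2 * Real.pi * Complex.I) := by
    push_cast
    ring
  rw [h2, Complex.exp_int_mul_two_pi_mul_I]
  simp

abbrev HS : Type := lp (fun _ : ℕ => ℂ) 2

lemma summable_e (n : ℤ) : Summable fun k => ‖e n k‖ ^ 2 := by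
  refine Summable.of_nonneg_of_le (fun k => by positivity)
    (g := fun k => ‖e n k‖ ^ 2) (f := fun k => (2 * Real.pi * |(n : ℝ)|) ^ 2 * (1 / 4) ^ k) ?_ ?_
  · intro k
    have h := e_norm_le_all n k
    calc ‖e n k‖ ^ 2 ≤ (2 * Real.pi * |(n : ℝ)| * (1 / 2) ^ k) ^ 2 := by gcongr
      _ = (2 * Real.pi * |(n : ℝ)|) ^ 2 * (1 / 4) ^ k := by
        rw [mul_pow, ← pow_mul, mul_comm k 2, pow_mul]
        norm_num
  · exact (summable_geometric_of_lt_one (by norm_num) (by norm_num)).mul_left _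

lemma memlp_e (n : ℤ) : Memℓp (e n) 2 := by
  apply memℓp_gen
  have := summable_e n
  simpa using this

noncomputable def E (n : ℤ) : HS := ⟨e n, memlp_e n⟩

lemma E_coe (n : ℤ) (k : ℕ) : (E n : ∀ _ : ℕ, ℂ) k = e n k := rfl

lemma norm_sq_eq (x : HS) : ‖x‖ ^ 2 = ∑' k, ‖(x : ∀ _ : ℕ, ℂ) k‖ ^ 2 := by
  have h := lp.norm_rpow_eq_tsum (p := 2) (by norm_num) x
  simpa using h

lemma norm_E_sub (a c : ℤ) : ‖E a - E c‖ = ‖E (a - c)‖ := by
  have h : ‖E a - E c‖ ^ 2 = ‖E (a - c)‖ ^ 2 := by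
    rw [norm_sq_eq, norm_sq_eq]
    congr 1
    ext k
    congr 1
    rw [lp.coeFn_sub, Pi.sub_apply, E_coe, E_coe, E_coe]
    unfold e
    have e1 : (w k : ℂ) * (Complex.exp (Complex.I * ((2 * Real.pi * a / b k : ℝ) : ℂ)) - 1) -
        (w k : ℂ) * (Complex.exp (Complex.I * ((2 * Real.pi * c / b k : ℝ) : ℂ)) - 1)
        = Complex.exp (Complex.I * ((2 * Real.pi * c / b k : ℝ) : ℂ)) * ((w k : ℂ) *
          (Complex.exp (Complex.I * ((2 * Real.pi * (a - c : ℤ) / b k : ℝ) : ℂ)) - 1)) := by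
      have e2 : Complex.exp (Complex.I * ((2 * Real.pi * a / b k : ℝ) : ℂ))
          = Complex.exp (Complex.I * ((2 * Real.pi * c / b k : ℝ) : ℂ)) *
            Complex.exp (Complex.I * ((2 * Real.pi * (a - c : ℤ) / b k : ℝ) : ℂ)) := by
        rw [← Complex.exp_add]
        congr 1
        push_cast
        ring
      rw [e2]
      ring
    rw [e1, norm_mul]
    have e3 : ‖Complex.exp (Complex.I * ((2 * Real.pi * c / b k : ℝ) : ℂ))‖ = 1 := by
      rw [mul_comm]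
      exact Complex.norm_exp_ofReal_mul_I _
    rw [e3, one_mul]
  have h0 := norm_nonneg (E a - E c)
  have h1 := norm_nonneg (E (a - c))
  exact (sq_eq_sq₀ h0 h1).mp h

lemma norm_sq_le_of_bound {n : ℤ} {D : ℝ} (h : ∀ k, ‖e n k‖ ^ 2 ≤ D * (1 / 2) ^ k) :
    ‖E n‖ ^ 2 ≤ 2 * D := by
  rw [norm_sq_eq]
  have hs : Summable fun k : ℕ => D * (1 / 2 : ℝ) ^ k :=
    (summable_geometric_of_lt_one (by norm_num) (by norm_num)).mul_left _
  calc ∑' k, ‖(E n : ∀ _ : ℕ, ℂ) k‖ ^ 2 ≤ ∑' k : ℕ, D * (1 / 2 : ℝ) ^ k :=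
        Summable.tsum_le_tsum (fun k => h k) (summable_e n) hs
    _ = 2 * D := by
        rw [tsum_mul_left, tsum_geometric_of_lt_one (by norm_num) (by norm_num)]
        norm_num
        ring

lemma pow_sq_le {j k : ℕ} (h : j ≤ k) (c : ℝ) :
    (c * (1 / 2) ^ k) ^ 2 ≤ c ^ 2 * (1 / 2) ^ j * (1 / 2) ^ k := by
  have h1 : ((1 : ℝ) / 2) ^ k ≤ (1 / 2) ^ j :=
    pow_le_pow_of_le_one (by norm_num) (by norm_num) h
  calc (c * (1 / 2) ^ k) ^ 2 = c ^ 2 * (1 / 2) ^ k * (1 / 2) ^ k := by ring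
    _ ≤ c ^ 2 * (1 / 2) ^ j * (1 / 2) ^ k := by gcongr

lemma norm_E_b (j : ℕ) : ‖E (b j : ℤ)‖ ^ 2 ≤ 2 * ((2 * Real.pi) ^ 2 * (1 / 2) ^ j) := by
  apply norm_sq_le_of_bound
  intro k
  rcases lt_or_ge j k with h | h
  · have h1 := e_norm_le_of_lt h (b j : ℤ) (c := 1) (by simp)
    rw [mul_one] at h1
    calc ‖e (b j : ℤ) k‖ ^ 2 ≤ (2 * Real.pi * (1 / 2) ^ k) ^ 2 := by gcongr
      _ ≤ (2 * Real.pi) ^ 2 * (1 / 2) ^ j * (1 / 2) ^ k := pow_sq_le h.le _
  · have h0 : e (b j : ℤ) k = 0 := by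
      apply e_eq_zero
      rcases h.lt_or_eq with h' | h'
      · exact_mod_cast (Dvd.intro_left _ rfl).trans (b_dvd h')
      · rw [h']
    rw [h0, norm_zero, zero_pow two_ne_zero]
    positivity

lemma tendsto_E_b : Tendsto (fun j => ‖E (b j : ℤ)‖) atTop (𝓝 0) := by
  have h1 : Tendsto (fun j : ℕ => 2 * ((2 * Real.pi) ^ 2 * (1 / 2 : ℝ) ^ j)) atTop
      (𝓝 (2 * ((2 * Real.pi) ^ 2 * 0))) :=
    ((tendsto_pow_atTop_nhds_zero_of_lt_one (by norm_num) (by norm_num)).const_mul _).const_mul _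
  have h2 : Tendsto (fun j => ‖E (b j : ℤ)‖ ^ 2) atTop (𝓝 0) := by
    refine squeeze_zero (fun j => by positivity) norm_E_b ?_
    simpa using h1
  have h3 := h2.sqrt
  simpa using h3

/-- Half of `b j`. -/
noncomputable def hb (j : ℕ) : ℕ := b j / 2

lemma two_mul_hb (j : ℕ) : 2 * hb j = b j := Nat.mul_div_cancel' (two_dvd_b j)

lemma hb_bound (j : ℕ) : ∃ τ : ℝ, 0 ≤ τ ∧ τ ≤ 2 * Real.pi ^ 2 ∧
    1 + ‖E (hb j : ℤ)‖ ^ 2 = U j + τ := by
  have hs := summable_e (hb j : ℤ)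
  have h1 : ‖E (hb j : ℤ)‖ ^ 2 = ‖e (hb j : ℤ) j‖ ^ 2 +
      ∑' k, ite (k = j) 0 (‖e (hb j : ℤ) k‖ ^ 2) := by
    rw [norm_sq_eq]
    exact hs.tsum_eq_add_tsum_ite j
  have hbj : (0 : ℝ) < b j := by exact_mod_cast b_pos j
  have h2b : (2 : ℝ) * hb j = b j := by exact_mod_cast two_mul_hb j
  have h2 : ‖e (hb j : ℤ) j‖ ^ 2 = U j - 1 := by
    have e1 : e (hb j : ℤ) j = -(2 * (w j : ℂ)) := by
      unfold e
      have e2 : (2 * Real.pi * ((hb j : ℤ) : ℝ) / b j : ℝ) = Real.pi := by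
        rw [← h2b]
        have : (hb j : ℝ) ≠ 0 := by
          intro h0
          rw [h0] at h2b
          simp at h2b
          linarith
        push_cast
        field_simp
      rw [e2, mul_comm Complex.I, Complex.exp_pi_mul_I]
      ring
    rw [e1, norm_neg, norm_mul, Complex.norm_real, Real.norm_eq_abs,
      abs_of_nonneg (w_nonneg j)]
    simp only [Complex.norm_ofNat]
    exact w_sq j
  have hterm : ∀ k, ite (k = j) 0 (‖e (hb j : ℤ) k‖ ^ 2) ≤ Real.pi ^ 2 * (1 / 2) ^ k := by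
    intro k
    split_ifs with hk
    · positivity
    · rcases lt_or_ge j k with h | h
      · have h1 := e_norm_le_of_lt h (hb j : ℤ) (c := 1 / 2) (by
          rw [abs_of_nonneg (by positivity)]
          push_cast
          linarith)
        have h3 : 2 * Real.pi * (1 / 2) * (1 / 2) ^ k = Real.pi * (1 / 2) ^ k := by ring
        rw [h3] at h1
        have hpi := Real.pi_pos
        calc ‖e (hb j : ℤ) k‖ ^ 2 ≤ (Real.pi * (1 / 2) ^ k) ^ 2 := by gcongr
          _ ≤ Real.pi ^ 2 * (1 / 2) ^ 0 * (1 / 2) ^ k := pow_sq_le (Nat.zero_le k) _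
          _ = Real.pi ^ 2 * (1 / 2) ^ k := by ring
      · have hlt : k < j := lt_of_le_of_ne h hk
        have h0 : e (hb j : ℤ) k = 0 := by
          apply e_eq_zero
          obtain ⟨d, hd⟩ := b_dvd hlt
          have : hb j = b k * d := by
            have := two_mul_hb j
            rw [hd, mul_assoc] at this
            exact Nat.eq_of_mul_eq_mul_left (by norm_num) this
          rw [this]
          push_cast
          exact Dvd.intro _ rfl
        rw [h0, norm_zero, zero_pow two_ne_zero]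
        positivity
  have hnn : ∀ k, 0 ≤ ite (k = j) 0 (‖e (hb j : ℤ) k‖ ^ 2) := by
    intro k
    split_ifs
    · exact le_rfl
    · positivity
  have hgs : Summable fun k : ℕ => Real.pi ^ 2 * (1 / 2 : ℝ) ^ k :=
    (summable_geometric_of_lt_one (by norm_num) (by norm_num)).mul_left _
  refine ⟨∑' k, ite (k = j) 0 (‖e (hb j : ℤ) k‖ ^ 2), tsum_nonneg hnn, ?_, ?_⟩
  · calc ∑' k, ite (k = j) 0 (‖e (hb j : ℤ) k‖ ^ 2) ≤ ∑' k : ℕ, Real.pi ^ 2 * (1 / 2 : ℝ) ^ k :=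
        Summable.tsum_le_tsum hterm (Summable.of_nonneg_of_le hnn hterm hgs) hgs
      _ = 2 * Real.pi ^ 2 := by
        rw [tsum_mul_left, tsum_geometric_of_lt_one (by norm_num) (by norm_num)]
        norm_num
        ring
  · rw [h1, h2]
    ring

end Run7.h37.NullSys
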