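import Pool.Agent.Run7.h37.NullHilbert

set_option autoImplicit false
open Filter Topology
open scoped PiCountable

namespace Run7.h37.NullSys

/-- The generating sequence. -/
noncomputable def f (n : ℕ) : ℝ := G (1 + ‖E (n : ℤ)‖ ^ 2)

lemma f_abs_le (n : ℕ) : |f n| ≤ 1 := G_abs_le _

lemma f_add (m s : ℕ) : f (m + s) = G (1 + ‖-E (-(m : ℤ)) + E (s : ℤ)‖ ^ 2) := by
  unfold f
  have h1 : -E (-(m : ℤ)) + E (s : ℤ) = E (s : ℤ) - E (-(m : ℤ)) := by abel
  rw [h1, norm_E_sub]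
  have h2 : ((m + s : ℕ) : ℤ) = (s : ℤ) - -(m : ℤ) := by push_cast; ring
  rw [h2]

lemma G_abs {u u' : ℝ} (hu : 1 ≤ u) (hu' : 1 ≤ u') : |G u - G u'| ≤ |u - u'| := by
  apply G_lip hu hu'
  · nlinarith [abs_nonneg (u - u')]
  · nlinarith [abs_nonneg (u - u')]

lemma norm_add_close (m s : ℕ) :
    |‖E ((m + s : ℕ) : ℤ)‖ - ‖E (m : ℤ)‖| ≤ ‖E (s : ℤ)‖ := by
  refine (abs_norm_sub_norm_le _ _).trans ?_
  rw [norm_E_sub]
  have h2 : ((m + s : ℕ) : ℤ) - (m : ℤ) = (s : ℤ) := by push_cast; ring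
  rw [h2]

lemma tendsto_f_b (m : ℕ) : Tendsto (fun j => f (m + b j)) atTop (𝓝 (f m)) := by
  have h1 : Tendsto (fun j => ‖E ((m + b j : ℕ) : ℤ)‖) atTop (𝓝 ‖E (m : ℤ)‖) := by
    rw [tendsto_iff_dist_tendsto_zero]
    refine squeeze_zero (fun j => dist_nonneg) (fun j => ?_) tendsto_E_b
    rw [Real.dist_eq]
    exact norm_add_close m (b j)
  have h2 : Tendsto (fun j => 1 + ‖E ((m + b j : ℕ) : ℤ)‖ ^ 2) atTop
      (𝓝 (1 + ‖E (m : ℤ)‖ ^ 2)) := (h1.pow 2).const_add 1
  rw [tendsto_iff_dist_tendsto_zero] at h2 ⊢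
  refine squeeze_zero (fun j => dist_nonneg) (fun j => ?_) h2
  rw [Real.dist_eq, Real.dist_eq]
  unfold f
  apply G_abs
  · nlinarith [sq_nonneg ‖E ((m + b j : ℕ) : ℤ)‖]
  · nlinarith [sq_nonneg ‖E (m : ℤ)‖]

lemma G_U (j : ℕ) : G (U j) = Real.cos (Real.pi * j) := by
  unfold G U
  rw [Real.log_exp]
  have : 1 + (Real.exp (Real.pi * j) - 1) = Real.exp (Real.pi * j) := by ring
  rw [this, Real.log_exp]

lemma tendsto_U : Tendsto U atTop atTop := by
  unfold U
  apply Real.tendsto_exp_atTop.comp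
  apply tendsto_atTop_add_const_right
  apply Real.tendsto_exp_atTop.comp
  exact tendsto_natCast_atTop_atTop.const_mul_atTop Real.pi_pos

lemma tendsto_f_hb (s : ℕ) : Tendsto (fun j => f (hb j + s) - G (U j)) atTop (𝓝 0) := by
  rw [Metric.tendsto_nhds]
  intro ε hε
  obtain ⟨R, hR1, hR⟩ := G_slow (show 0 < ε / 3 by positivity)
  set c := ‖E (s : ℤ)‖ with hc
  have hc0 : 0 ≤ c := norm_nonneg _
  filter_upwards [tendsto_U.eventually_ge_atTop (4 * R), tendsto_U.eventually_ge_atTop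
    (1 + (2 * c) ^ 2), tendsto_U.eventually_ge_atTop (2 * Real.pi ^ 2)] with j h1 h2 h3
  obtain ⟨τ, hτ0, hτ1, hτ⟩ := hb_bound j
  set x := ‖E (hb j : ℤ)‖ with hx
  set y := ‖E ((hb j + s : ℕ) : ℤ)‖ with hy
  have hx0 : 0 ≤ x := norm_nonneg _
  have hy0 : 0 ≤ y := norm_nonneg _
  have hxy : |y - x| ≤ c := norm_add_close (hb j) s
  rw [abs_le] at hxy
  have hx2 : 2 * c ≤ x := by
    have : (2 * c) ^ 2 ≤ x ^ 2 := by linarith
    exact (pow_le_pow_iff_left₀ (by positivity) hx0 two_ne_zero).mp this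
  have hy1 : x ≤ 2 * y := by linarith [hxy.1]
  have hy2 : y ≤ 2 * x := by linarith [hxy.2]
  have hy1' : x ^ 2 ≤ (2 * y) ^ 2 := by gcongr
  have hy2' : y ^ 2 ≤ (2 * x) ^ 2 := by gcongr
  have hUpos : 1 ≤ U j := one_le_U j
  have a1 : |G (1 + x ^ 2) - G (U j)| ≤ ε / 3 := by
    apply hR
    · linarith
    · linarith
    · linarith
  have a2 : |G (1 + y ^ 2) - G (1 + x ^ 2)| ≤ ε / 3 := by
    rcases le_total (1 + x ^ 2) (1 + y ^ 2) with h | h
    · apply hR _ _ _ h
      · nlinarith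
      · linarith
    · rw [abs_sub_comm]
      apply hR _ _ _ h
      · nlinarith
      · nlinarith
  rw [Real.dist_eq, sub_zero]
  have e1 : f (hb j + s) - G (U j) =
      (G (1 + y ^ 2) - G (1 + x ^ 2)) + (G (1 + x ^ 2) - G (U j)) := by
    unfold f
    ring
  rw [e1]
  refine (abs_add_le _ _).trans_lt ?_
  linarith

/-- The shift. -/
def S (x : ℕ → ℝ) : ℕ → ℝ := fun n => x (n + 1)

lemma S_continuous : Continuous S := continuous_pi fun n => continuous_apply (n + 1)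

lemma S_iter (k : ℕ) (x : ℕ → ℝ) : S^[k] x = fun n => x (n + k) := by
  induction k generalizing x with
  | zero => rfl
  | succ k ih =>
    rw [Function.iterate_succ_apply, ih]
    ext n
    simp [S, add_assoc]

/-- The orbit of the sequence. -/
noncomputable def orb (m : ℕ) : ℕ → ℝ := fun s => f (m + s)

/-- The orbit closure. -/
noncomputable def K : Set (ℕ → ℝ) := closure (Set.range orb)

lemma S_orb (m : ℕ) : S (orb m) = orb (m + 1) := by
  ext s
  simp only [S, orb]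
  congr 1
  ring

lemma K_mapsTo : Set.MapsTo S K K := by
  apply Set.MapsTo.closure _ S_continuous
  rintro _ ⟨m, rfl⟩
  exact ⟨m + 1, (S_orb m).symm⟩

lemma K_compact : IsCompact K := by
  have h1 : IsCompact (Set.pi Set.univ fun _ : ℕ => Set.Icc (-1 : ℝ) 1) :=
    isCompact_univ_pi fun _ => isCompact_Icc
  refine h1.of_isClosed_subset isClosed_closure ?_
  apply closure_minimal _ h1.isClosed
  rintro _ ⟨m, rfl⟩ s -
  have := f_abs_le (m + s)
  rw [abs_le] at this
  exact this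

/-- The phase space. -/
abbrev X : Type := K

instance : CompactSpace X := isCompact_iff_compactSpace.mp K_compact

/-- The map. -/
noncomputable def T (x : X) : X := ⟨S x.1, K_mapsTo x.2⟩

lemma T_continuous : Continuous T :=
  Continuous.subtype_mk (S_continuous.comp continuous_subtype_val) _

lemma T_iter (k : ℕ) (x : X) : (T^[k] x : ℕ → ℝ) = fun n => x.1 (n + k) := by
  have h : (T^[k] x : ℕ → ℝ) = S^[k] x.1 := by
    induction k generalizing x with
    | zero => rfl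
    | succ k ih => rw [Function.iterate_succ_apply, Function.iterate_succ_apply, ih]; rfl
  rw [h, S_iter]

/-- Orbit points. -/
noncomputable def xo (m : ℕ) : X := ⟨orb m, subset_closure ⟨m, rfl⟩⟩

lemma T_xo (k m : ℕ) : T^[k] (xo m) = xo (m + k) := by
  apply Subtype.ext
  rw [T_iter]
  ext n
  simp only [xo, orb]
  congr 1
  ring

lemma tendsto_xo (m : ℕ) : Tendsto (fun j => xo (m + b j)) atTop (𝓝 (xo m)) := by
  rw [tendsto_subtype_rng]
  rw [tendsto_pi_nhds]
  intro s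
  have h := tendsto_f_b (m + s)
  refine h.congr (fun j => ?_)
  simp only [xo, orb]
  congr 1
  ring

lemma dense_xo {O : Set X} (hO : IsOpen O) (hne : O.Nonempty) : ∃ m, xo m ∈ O := by
  obtain ⟨x, hx⟩ := hne
  obtain ⟨O', hO', rfl⟩ := isOpen_induced_iff.mp hO
  have hxK : x.1 ∈ closure (Set.range orb) := x.2
  obtain ⟨y, hy, m, rfl⟩ := mem_closure_iff.mp hxK O' hO' hx
  exact ⟨m, hy⟩

lemma recur_xo {O : Set X} (hO : IsOpen O) {m : ℕ} (hm : xo m ∈ O) (N : ℕ) :
    ∃ m', N ≤ m' ∧ xo m' ∈ O := by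
  have h1 := (tendsto_xo m).eventually (hO.mem_nhds hm)
  have h2 : ∀ᶠ j in atTop, N ≤ b j := b_strictMono.tendsto_atTop.eventually_ge_atTop N
  obtain ⟨j, hj1, hj2⟩ := (h1.and h2).exists
  exact ⟨m + b j, by omega, hj1⟩

theorem transitive (O P : Set X) (hO : IsOpen O) (hP : IsOpen P) (hOne : O.Nonempty)
    (hPne : P.Nonempty) : ∃ n : ℕ, 1 ≤ n ∧ (P ∩ T^[n] ⁻¹' O).Nonempty := by
  obtain ⟨a, ha⟩ := dense_xo hP hPne
  obtain ⟨c, hc⟩ := dense_xo hO hOne
  obtain ⟨c', hc', hc''⟩ := recur_xo hO hc (a + 1)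
  refine ⟨c' - a, by omega, xo a, ha, ?_⟩
  rw [Set.mem_preimage, T_xo]
  rwa [show a + (c' - a) = c' by omega]

/-- Fixed point `1`. -/
lemma one_mem : (fun _ : ℕ => (1 : ℝ)) ∈ K := by
  have h : Tendsto (fun i : ℕ => orb (hb (2 * i))) atTop (𝓝 (fun _ : ℕ => (1 : ℝ))) := by
    rw [tendsto_pi_nhds]
    intro s
    have h1 : Tendsto (fun i : ℕ => 2 * i) atTop atTop :=
      tendsto_atTop_mono (fun i => (by omega : i ≤ 2 * i)) tendsto_id
    have h2 := (tendsto_f_hb s).comp h1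
    have h3 : Tendsto (fun i : ℕ => (f (hb (2 * i) + s) - G (U (2 * i))) + 1) atTop
        (𝓝 (0 + 1)) := h2.add_const 1
    rw [zero_add] at h3
    refine h3.congr (fun i => ?_)
    have h4 : G (U (2 * i)) = 1 := by
      rw [G_U]
      have : Real.pi * ((2 * i : ℕ) : ℝ) = i * (2 * Real.pi) := by push_cast; ring
      rw [this, Real.cos_nat_mul_two_pi]
    rw [h4]
    simp only [orb]
    ring
  exact mem_closure_of_tendsto h (Eventually.of_forall fun i => ⟨_, rfl⟩)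

/-- Fixed point `-1`. -/
lemma neg_one_mem : (fun _ : ℕ => (-1 : ℝ)) ∈ K := by
  have h : Tendsto (fun i : ℕ => orb (hb (2 * i + 1))) atTop (𝓝 (fun _ : ℕ => (-1 : ℝ))) := by
    rw [tendsto_pi_nhds]
    intro s
    have h1 : Tendsto (fun i : ℕ => 2 * i + 1) atTop atTop :=
      tendsto_atTop_mono (fun i => (by omega : i ≤ 2 * i + 1)) tendsto_id
    have h2 := (tendsto_f_hb s).comp h1
    have h3 : Tendsto (fun i : ℕ => (f (hb (2 * i + 1) + s) - G (U (2 * i + 1))) + (-1)) atTop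
        (𝓝 (0 + (-1))) := h2.add_const (-1)
    rw [zero_add] at h3
    refine h3.congr (fun i => ?_)
    have h4 : G (U (2 * i + 1)) = -1 := by
      rw [G_U]
      have : Real.pi * ((2 * i + 1 : ℕ) : ℝ) = i * (2 * Real.pi) + Real.pi := by
        push_cast; ring
      rw [this, Real.cos_nat_mul_two_pi_add_pi]
    rw [h4]
    simp only [orb]
    ring
  exact mem_closure_of_tendsto h (Eventually.of_forall fun i => ⟨_, rfl⟩)

noncomputable def pOne : X := ⟨_, one_mem⟩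
noncomputable def pNeg : X := ⟨_, neg_one_mem⟩

lemma T_pOne (k : ℕ) : T^[k] pOne = pOne := by
  apply Subtype.ext
  rw [T_iter]
  rfl

lemma T_pNeg (k : ℕ) : T^[k] pNeg = pNeg := by
  apply Subtype.ext
  rw [T_iter]
  rfl

lemma dist_pOne_pNeg : 1 ≤ dist pOne pNeg := by
  have h := PiCountable.min_dist_le_dist_pi (F := fun _ : ℕ => ℝ) pOne.1 pNeg.1 0
  have h2 : dist (pOne.1 0) (pNeg.1 0) = 2 := by
    rw [Real.dist_eq]
    simp only [pOne, pNeg]
    norm_num
  rw [h2] at h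
  rw [Subtype.dist_eq]
  simpa using h

theorem not_mean_equi : ¬ (∀ ε : ℝ, 0 < ε → ∃ δ : ℝ, 0 < δ ∧ ∀ x y : X, dist x y < δ →
        ∀ᶠ n in atTop,
          (∑ i ∈ Finset.range n, dist (T^[i] x) (T^[i] y)) / (n : ℝ) < ε) := by
  intro h
  obtain ⟨δ, hδ, h⟩ := h (1 / 4) (by norm_num)
  obtain ⟨a, ha⟩ := dense_xo (O := Metric.ball pOne δ) Metric.isOpen_ball
    ⟨pOne, Metric.mem_ball_self hδ⟩
  obtain ⟨c, hc⟩ := dense_xo (O := Metric.ball pNeg δ) Metric.isOpen_ball
    ⟨pNeg, Metric.mem_ball_self hδ⟩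
  have h1 := h (xo a) pOne ha
  have h2 := h (xo c) pNeg hc
  obtain ⟨n, hn1, hn2, hn3⟩ := (h1.and (h2.and (eventually_ge_atTop (2 * (a + c) + 1)))).exists
  have hnpos : (0 : ℝ) < n := by
    have : 0 < n := by omega
    exact_mod_cast this
  rw [div_lt_iff₀ hnpos] at hn1 hn2
  -- sums over the common window
  have s1 : ∑ k ∈ Finset.Ico (a + c) n, dist (xo k) pOne ≤
      ∑ i ∈ Finset.range n, dist (T^[i] (xo a)) (T^[i] pOne) := by
    have e1 : ∑ i ∈ Finset.range n, dist (T^[i] (xo a)) (T^[i] pOne) =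
        ∑ k ∈ Finset.Ico a (n + a), dist (xo k) pOne := by
      rw [Finset.range_eq_Ico, Finset.sum_Ico_eq_sum_range, Finset.sum_Ico_eq_sum_range]
      simp only [Nat.sub_zero, Nat.add_sub_cancel, zero_add]
      apply Finset.sum_congr rfl
      intro i _
      rw [T_xo, T_pOne]
    rw [e1]
    apply Finset.sum_le_sum_of_subset_of_nonneg
    · intro k hk
      rw [Finset.mem_Ico] at *
      omega
    · intro i _ _
      exact dist_nonneg
  have s2 : ∑ k ∈ Finset.Ico (a + c) n, dist (xo k) pNeg ≤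
      ∑ i ∈ Finset.range n, dist (T^[i] (xo c)) (T^[i] pNeg) := by
    have e1 : ∑ i ∈ Finset.range n, dist (T^[i] (xo c)) (T^[i] pNeg) =
        ∑ k ∈ Finset.Ico c (n + c), dist (xo k) pNeg := by
      rw [Finset.range_eq_Ico, Finset.sum_Ico_eq_sum_range, Finset.sum_Ico_eq_sum_range]
      simp only [Nat.sub_zero, Nat.add_sub_cancel, zero_add]
      apply Finset.sum_congr rfl
      intro i _
      rw [T_xo, T_pNeg]
    rw [e1]
    apply Finset.sum_le_sum_of_subset_of_nonneg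
    · intro k hk
      rw [Finset.mem_Ico] at *
      omega
    · intro i _ _
      exact dist_nonneg
  have s3 : (((n - (a + c) : ℕ) : ℝ)) ≤
      ∑ k ∈ Finset.Ico (a + c) n, (dist (xo k) pOne + dist (xo k) pNeg) := by
    have : ∑ k ∈ Finset.Ico (a + c) n, (1 : ℝ) = ((n - (a + c) : ℕ) : ℝ) := by
      simp
    rw [← this]
    apply Finset.sum_le_sum
    intro k _
    have h5 := dist_triangle pOne (xo k) pNeg
    rw [dist_comm pOne (xo k)] at h5
    exact dist_pOne_pNeg.trans h5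
  rw [Finset.sum_add_distrib] at s3
  have hcast : ((n - (a + c) : ℕ) : ℝ) = n - (a + c) := by
    rw [Nat.cast_sub (by omega)]
    push_cast
    ring
  have hn3' : (2 * ((a : ℝ) + c) + 1) ≤ n := by exact_mod_cast hn3
  rw [hcast] at s3
  linarith

end Run7.h37.NullSys
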